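import Pool.Agent.H15.G.R_seed8.TH759.EV.Quad
import Pool.Agent.H15.G.R_seed8.TH387.BS.Dich

/-!
# Nearly equal multiplicities at `4 ^ (k + 2)`, `9 * 4 ^ (k + 1)` and `13 * 4 ^ k` points
-/

set_option autoImplicit false

namespace Pool.Agent.TH759.EV

open Finset Pool.Agent.TH176.Nag Pool.Agent.TH603.Sur Pool.Agent.TH763.DB Module Pool.Agent.TH641.UM
  Pool.Agent.TH2.NU

theorem NU_of_dich {N : ℕ} (h0 : ∀ (w : Fin N → ℕ) (m : ℕ), (∀ i, w i = m ∨ w i = m + 1) →
    ∀ d, Emp w (TZ d) ∨ Sur w (TZ d)) : NU N := by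
  intro b hb x y hxy d
  have e : x • {b} + y • {b + 1} = ms (Sum.elim (fun _ : Fin x => b) (fun _ : Fin y => b + 1)) := by
    rw [ms_sum, ms_fin, ms_fin]
  have hc : Fintype.card (Fin x ⊕ Fin y) = N := by
    rw [Fintype.card_sum, Fintype.card_fin, Fintype.card_fin]; exact hxy
  let f := Fintype.equivFinOfCardEq hc
  have h1 := h0 (fun i => Sum.elim (fun _ : Fin x => b) (fun _ : Fin y => b + 1) (f.symm i)) b (by
    intro i
    rcases f.symm i with j | j
    · exact Or.inl rfl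
    · exact Or.inr rfl) d
  have h2 := Pool.Agent.TH864.SX.ED_of_or h1
  have h3 : ms (fun i => Sum.elim (fun _ : Fin x => b) (fun _ : Fin y => b + 1) (f.symm i)) =
      x • {b} + y • {b + 1} := by
    rw [e]
    unfold ms
    exact Equiv.sum_comp f.symm (fun j => ({Sum.elim (fun _ : Fin x => b) (fun _ : Fin y => b + 1) j} : Multiset ℕ))
  rw [cond_condM, h3] at h2
  exact ⟨fun h => (EmpM_iff h3 _).2 (h2.1 h), fun h => (SurM_iff h3 _).2 (h2.2 h)⟩

theorem NU_four : NU 4 := NU_of_dich fun _ _ hw d => Pool.Agent.TH387.BS.dich4 hw d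

theorem NU_nine : NU 9 := NU_of_dich fun _ _ hw d => Pool.Agent.TH387.BS.dich9 hw d

/-- expected dimension from near-uniform exactness -/
theorem expDim_of_NU {n : ℕ} (h : NU n) {m : ℕ} (hm : 1 ≤ m) {w : Fin n → ℕ}
    (hw : ∀ i, w i = m ∨ w i = m + 1) :
    ∃ F : MvPolynomial (Fin n × Fin 2) ℚ, F ≠ 0 ∧ ∀ {L : Type} [Field L] [CharZero L]
      (P : Fin n → Fin 2 → L),
      MvPolynomial.aeval (fun ij : Fin n × Fin 2 => P ij.1 ij.2) F ≠ 0 →
      ∀ d, Pool.Agent.H932R3.ExpDim L w P d :=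
  expDim_of_sign (fun d => (Ex_fam h hm (Fintype.card_fin _) hw d).1)
    (fun d => (Ex_fam h hm (Fintype.card_fin _) hw d).2)

/-- the numbers of points -/
theorem NU_all {n k : ℕ} (hn : n = 4 ^ (k + 2) ∨ n = 9 * 4 ^ (k + 1) ∨ n = 13 * 4 ^ k) : NU n := by
  rcases hn with rfl | rfl | rfl
  · have := NU_pow NU_four (k + 1)
    rwa [show 4 * 4 ^ (k + 1) = 4 ^ (k + 2) by ring] at this
  · exact NU_pow NU_nine (k + 1)
  · exact NU_pow NU_thirteen k

end Pool.Agent.TH759.EV
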