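import Pool.Agent.H15.G.R_seed8.TH641.NW.Inst
import Pool.Agent.H15.G.R_seed8.TH603.Sur.Main

/-! Two exact flattenings of the Tate triangle: the rows are `N (m - g) + c` or `N (m - g) + c + 1`,
for `N = 11` and `N = 13`. -/

set_option autoImplicit false

namespace Pool.Agent.TH759.EV

open Finset Pool.Agent.TH176.Nag Pool.Agent.TH603.Sur

/-- after the first flattening -/
def F1 (q : ℤ) (L : ℝ) (d : ℕ) : Set (ℤ × ℤ) :=
  {p | 0 ≤ p.2 ∧ p.2 < q * (p.1 + 2 * d) ∧ (p.1 : ℝ) + 2 * d ≤ L * (d - 3 * p.2)}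

/-- after the second flattening -/
def F2 (q : ℤ) (L P : ℝ) (d : ℕ) : Set (ℤ × ℤ) :=
  {p | 0 ≤ p.2 ∧ (1 ≤ p.1 + 2 * d → (p.1 : ℝ) + 2 * d ≤ L * d - P * p.2) ∧
    (p.1 + 2 * d ≤ 0 → ((p.2 : ℝ) - q * (p.1 + 2 * d) + 1) * P ≤ L * d - (p.1 + 2 * d))}

/-- the rows, as columns -/
def F3 {ι : Type} [Fintype ι] (w : ι → ℕ) : Set (ℤ × ℤ) :=
  {p | 0 ≤ p.1 ∧ 0 ≤ p.2 ∧ p.2 < ((∑ i, (w i - p.1.toNat) : ℕ) : ℤ)}

/-- the numbers of the chain -/
structure Par (q s : ℤ) (L P : ℝ) (N : ℕ) : Prop where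
  hq : 1 ≤ q
  hs : 1 ≤ s
  hqs : q * s = 2
  hL : (q : ℝ) * L * (L - 3) = 1
  h3 : 3 < L
  h4 : L < 4
  hP : P = 3 * L + s
  hN : (N : ℤ) = 9 + 2 * s
  hirr : Irrational L

variable {q s : ℤ} {L P : ℝ} {N : ℕ}

theorem Par.qs (h : Par q s L P N) : (q : ℝ) * s = 2 := by exact_mod_cast h.hqs

theorem Par.qR (h : Par q s L P N) : (1 : ℝ) ≤ q := by exact_mod_cast h.hq

theorem Par.P0 (h : Par q s L P N) : 0 < P := by
  have h1 : (1 : ℝ) ≤ s := by exact_mod_cast h.hs
  have := h.h3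
  rw [h.hP]; linarith

theorem Par.P2 (h : Par q s L P N) : (q : ℝ) * P ^ 2 = N * (q * P - 1) := by
  have h1 : (N : ℝ) = 9 + 2 * s := by exact_mod_cast h.hN
  rw [h1, h.hP]
  linear_combination 9 * h.hL - 9 * h.qs - s * h.qs

theorem Par.R0 (h : Par q s L P N) : 0 < (q : ℝ) * P - 1 := by
  have h1 : (1 : ℝ) ≤ s := by exact_mod_cast h.hs
  have h2 := h.h3
  have h3 := h.qR
  have h4 : 10 ≤ P := by rw [h.hP]; linarith
  nlinarith

/-- the final computation for emptiness -/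
theorem Par.fin (h : Par q s L P N) {d W g T X : ℝ} (hS : N * (q * L * d - 1) < q * P * W)
    (hX : X = L * d - P * g) (hT : (q * P - 1) * T ≤ (q * P - 1) * X + (X - P)) :
    T < W - N * g := by
  have h1 := h.P2
  have h2 := h.R0
  have h3 := h.P0
  have hN0 : (0 : ℝ) < N := by
    have h5 : (N : ℝ) = 9 + 2 * s := by exact_mod_cast h.hN
    have h6 : (1 : ℝ) ≤ s := by exact_mod_cast h.hs
    rw [h5]; linarith
  have h4 : P * (N * (q * L * d - 1)) < P * (q * P * W) := mul_lt_mul_of_pos_left hS h3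
  have e3 : P * (q * P * W) = N * ((q * P - 1) * W) := by
    have : P * (q * P * W) = (q * P ^ 2) * W := by ring
    rw [this, h1]; ring
  have h5 : P * (q * L * d - 1) < (q * P - 1) * W := by
    rw [e3] at h4
    have : P * (N * (q * L * d - 1)) = N * (P * (q * L * d - 1)) := by ring
    rw [this] at h4
    exact lt_of_mul_lt_mul_left h4 hN0.le
  have h6 : (q * P - 1) * T < (q * P - 1) * (W - N * g) := by
    rw [hX] at hT
    have e1 : ((q : ℝ) * P - 1) * (L * d - P * g) + ((L * d - P * g) - P) =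
        P * (q * L * d - 1) - q * P ^ 2 * g := by ring
    have e2 : ((q : ℝ) * P - 1) * (W - N * g) = (q * P - 1) * W - q * P ^ 2 * g := by rw [h1]; ring
    rw [e1] at hT
    rw [e2]
    linarith
  exact lt_of_mul_lt_mul_left h6 h2.le

theorem Emp_F3 {ι : Type} [Fintype ι] (w : ι → ℕ) : Emp w (F3 w) := by
  refine (Emp_rows w 0).comap 0 1 1 0 0 0 (by norm_num) ?_
  rintro ⟨a, b⟩ ⟨h1, h2, h3⟩
  simp only at h1 h2 h3
  refine ⟨by simp only; omega, by simp only; omega, ?_⟩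
  simp only
  have e : 1 * a + 0 * b + 0 = a := by ring
  rw [e]
  omega

theorem Sur_F3 {ι : Type} [Fintype ι] (w : ι → ℕ) : Sur w (F3 w) := by
  have h1 : Sur w {p : ℤ × ℤ | (p.2, p.1) ∈ F3 w} := by
    apply Sur_rows _ 0
    intro k j hj
    refine ⟨by simp, by simp, ?_⟩
    simp only [zero_add, Int.toNat_natCast]
    exact_mod_cast hj
  refine h1.comap 0 1 1 0 0 0 (by norm_num) ?_
  rintro ⟨a, b⟩ hab
  exact ⟨(b, a), hab, by simp⟩

/-- the multiplicities above a row, from below -/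
theorem sum_ge {ι : Type} [Fintype ι] (w : ι → ℕ) (hc : Fintype.card ι = N) (g : ℕ) :
    ((∑ i, w i : ℕ) : ℤ) - N * g ≤ ((∑ i, (w i - g) : ℕ) : ℤ) := by
  have h1 : ∑ i, w i ≤ ∑ i, (w i - g) + N * g := by
    have : N * g = ∑ _i : ι, g := by simp [hc]
    rw [this, ← sum_add_distrib]
    exact sum_le_sum fun i _ => by omega
  have h2 : ((∑ i, w i : ℕ) : ℤ) ≤ ((∑ i, (w i - g) + N * g : ℕ) : ℤ) := by exact_mod_cast h1
  push_cast at h2 ⊢
  linarith

/-- the multiplicities above a row, from above -/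
theorem sum_le' {ι : Type} [Fintype ι] (w : ι → ℕ) (hc : Fintype.card ι = N) {b : ℕ}
    (hb : ∀ i, w i ≤ b + 1) {g : ℕ} (hg : 0 < ∑ i, (w i - g)) :
    ((∑ i, (w i - g) : ℕ) : ℤ) ≤ ((∑ i, max (w i) b : ℕ) : ℤ) - N * g := by
  have hex : ∃ i, g < w i := by
    by_contra hcon
    push Not at hcon
    have : ∑ i, (w i - g) = 0 := sum_eq_zero fun i _ => Nat.sub_eq_zero_of_le (hcon i)
    omega
  obtain ⟨i, hi⟩ := hex
  have hgb : g ≤ b := by have := hb i; omega
  have h1 : ∑ i, (w i - g) + N * g ≤ ∑ i, max (w i) b := by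
    have : N * g = ∑ _i : ι, g := by simp [hc]
    rw [this, ← sum_add_distrib]
    refine sum_le_sum fun i _ => ?_
    rcases le_total (w i) g with h | h
    · rw [Nat.sub_eq_zero_of_le h, zero_add]
      exact hgb.trans (le_max_right _ _)
    · rw [Nat.sub_add_cancel h]
      exact le_max_left _ _
  have h2 : ((∑ i, (w i - g) + N * g : ℕ) : ℤ) ≤ ((∑ i, max (w i) b : ℕ) : ℤ) := by exact_mod_cast h1
  push_cast at h2 ⊢
  linarith

theorem Emp_F2 (h : Par q s L P N) {ι : Type} [Fintype ι] {w : ι → ℕ}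
    (hc : Fintype.card ι = N) {d : ℕ}
    (hS : N * ((q : ℝ) * L * d - 1) < q * P * ((∑ i, w i : ℕ) : ℝ)) : Emp w (F2 q L P d) := by
  refine Emp_flat 0 1 0 1 (by norm_num) ?_ (Emp_F3 w)
  rintro ⟨e, g⟩ T k ⟨h1, h2, h3⟩ ⟨h4, h5, h6⟩ hk
  simp only at h1 h2 h3 h4 h5 h6
  have hR := h.R0
  have hP := h.P0
  have hq := h.qR
  have hT0 : 0 ≤ T := by omega
  have hT0R : (0 : ℝ) ≤ T := by exact_mod_cast hT0
  obtain ⟨X, hX⟩ : ∃ X : ℝ, X = L * d - P * g := ⟨_, rfl⟩
  obtain ⟨a, ha⟩ : ∃ a : ℝ, a = (e : ℝ) + 2 * d := ⟨_, rfl⟩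
  have e1 : ((e - 1 * T : ℤ) : ℝ) + 2 * d = a - T := by rw [ha]; push_cast; ring
  have e2 : ((g + 0 * T : ℤ) : ℝ) = g := by push_cast; ring
  rw [e1, e2] at h5 h6
  rw [← ha] at h2 h3
  have key : (q * P - 1) * (T : ℝ) ≤ (q * P - 1) * X + (X - P) := by
    rcases le_or_gt 1 (e + 2 * d) with ha1 | ha1
    · have h7 := h2 ha1
      have haR : (1 : ℝ) ≤ a := by rw [ha]; exact_mod_cast ha1
      rw [← hX] at h7
      rcases le_or_gt 1 (e - 1 * T + 2 * d) with hb1 | hb1
      · have hbR : (1 : ℝ) ≤ a - T := by rw [← e1]; exact_mod_cast hb1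
        have h8 : (q * P - 1) * (T : ℝ) ≤ (q * P - 1) * (X - 1) :=
          mul_le_mul_of_nonneg_left (by linarith) hR.le
        have h9 : P ≤ q * P := le_mul_of_one_le_left hP.le hq
        have h10 : (q * P - 1) * (X - 1) = (q * P - 1) * X - (q * P - 1) := by ring
        rw [h10] at h8
        linarith
      · have h8 := h6 (by omega)
        have h9 : (q * P - 1) * (T : ℝ) = (q * P - 1) * a - (q * P - 1) * (a - T) := by ring
        have h10 : (q * P - 1) * a ≤ (q * P - 1) * X := mul_le_mul_of_nonneg_left h7 hR.le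
        rw [h9]
        have h11 : -((q * P - 1) * (a - T)) ≤ X - P := by
          rw [hX]
          have e3 : ((g : ℝ) - q * (a - T) + 1) * P = P * g - (q * P) * (a - T) + P := by ring
          rw [e3] at h8
          have e4 : (q * P - 1) * (a - T) = (q * P) * (a - T) - (a - T) := by ring
          rw [e4]
          linarith
        linarith
    · have h8 := h6 (by omega)
      have haR : a ≤ 0 := by
        rw [ha]
        have : e + 2 * d ≤ 0 := by omega
        exact_mod_cast this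
      have h11 : -((q * P - 1) * (a - T)) ≤ X - P := by
        rw [hX]
        have e3 : ((g : ℝ) - q * (a - T) + 1) * P = P * g - (q * P) * (a - T) + P := by ring
        rw [e3] at h8
        have e4 : (q * P - 1) * (a - T) = (q * P) * (a - T) - (a - T) := by ring
        rw [e4]
        linarith
      have h12 : (q * P - 1) * (T : ℝ) ≤ -((q * P - 1) * (a - T)) := by
        have : 0 ≤ (q * P - 1) * (-a) := mul_nonneg hR.le (by linarith)
        linarith [this, show -((q * P - 1) * (a - T)) = (q * P - 1) * (-a) + (q * P - 1) * (T : ℝ) by ring]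
      have h13 : 0 ≤ (q * P - 1) * (T : ℝ) := mul_nonneg hR.le hT0R
      have h14 : 0 ≤ (q * P - 1) * X := mul_nonneg hR.le (by linarith)
      linarith
  have h15 := h.fin hS hX key
  have h16 : T < ((∑ i, w i : ℕ) : ℤ) - N * g := by exact_mod_cast h15
  refine ⟨by simp only; omega, by simp, ?_⟩
  simp only
  have e5 : 0 * e + 1 * g = g := by ring
  rw [e5]
  obtain ⟨g', rfl⟩ := Int.eq_ofNat_of_zero_le h1
  have h17 := sum_ge w hc g'
  rw [Int.toNat_natCast]
  omega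

theorem Sur_F2 (h : Par q s L P N) {ι : Type} [Fintype ι] {w : ι → ℕ}
    (hc : Fintype.card ι = N) {b : ℕ} (hb : ∀ i, w i ≤ b + 1) {d : ℕ}
    (hS : q * P * ((∑ i, max (w i) b : ℕ) : ℝ) ≤ N * ((q : ℝ) * L * d - 1)) :
    Sur w (F2 q L P d) := by
  refine Sur_flat 0 1 0 1 (by norm_num) ?_ (Sur_F3 w)
  rintro ⟨g, k⟩ ⟨h1, h2, h3⟩
  simp only at h1 h2 h3
  obtain ⟨M, hM⟩ : ∃ M : ℕ, M = ∑ i, max (w i) b := ⟨_, rfl⟩
  rw [← hM] at hS
  have hkM : k + 1 ≤ (M : ℤ) - N * g := by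
    obtain ⟨g', rfl⟩ := Int.eq_ofNat_of_zero_le h1
    rw [Int.toNat_natCast] at h3
    have h4 := sum_le' w hc hb (g := g') (by omega)
    rw [← hM] at h4
    omega
  have hR := h.R0
  have hP := h.P0
  have hq := h.qR
  obtain ⟨X, hX⟩ : ∃ X : ℝ, X = L * d - P * g := ⟨_, rfl⟩
  -- `X + Y ≥ M - N g`
  have h4 : (q * P - 1) * ((M : ℝ) - N * g) ≤ (q * P - 1) * X + (X - P) := by
    have hN0 : (0 : ℝ) < N := by
      have h5 : (N : ℝ) = 9 + 2 * s := by exact_mod_cast h.hN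
      have h6 : (1 : ℝ) ≤ s := by exact_mod_cast h.hs
      rw [h5]; linarith
    have h5 : P * (q * P * M) ≤ P * (N * (q * L * d - 1)) := mul_le_mul_of_nonneg_left hS hP.le
    have e3 : P * (q * P * M) = N * ((q * P - 1) * M) := by
      have : P * (q * P * M) = (q * P ^ 2) * M := by ring
      rw [this, h.P2]; ring
    have h6 : (q * P - 1) * M ≤ P * (q * L * d - 1) := by
      rw [e3] at h5
      have : P * (N * (q * L * d - 1)) = N * (P * (q * L * d - 1)) := by ring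
      rw [this] at h5
      exact le_of_mul_le_mul_left h5 hN0
    have e1 : ((q : ℝ) * P - 1) * X + (X - P) = P * (q * L * d - 1) - q * P ^ 2 * g := by
      rw [hX]; ring
    have e2 : ((q : ℝ) * P - 1) * (M - N * g) = (q * P - 1) * M - q * P ^ 2 * g := by rw [h.P2]; ring
    rw [e1, e2]
    linarith
  have h5 : (k : ℝ) + 1 ≤ M - N * g := by exact_mod_cast hkM
  have hA1 := Int.floor_le X
  have hA2 := Int.lt_floor_add_one X
  obtain ⟨A, hA⟩ : ∃ A : ℤ, A = ⌊X⌋ := ⟨_, rfl⟩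
  rw [← hA] at hA1 hA2
  refine ⟨h2, 2 * d - A, fun t ht1 ht2 => ?_⟩
  have e3 : 0 * g - 1 * t = -t := by ring
  have e4 : 1 * g + 0 * t = g := by ring
  simp only at ht2
  rw [e3, e4]
  have ht1R : (2 : ℝ) * d - A ≤ t := by exact_mod_cast ht1
  have ht2R : (t : ℝ) ≤ 2 * d - A + k := by exact_mod_cast ht2
  refine ⟨h1, fun _ => ?_, fun _ => ?_⟩
  · simp only
    rw [← hX]
    push_cast
    linarith
  · simp only
    -- `β = -w ≤ k - A`
    obtain ⟨z, hz⟩ : ∃ z : ℝ, z = -(((-t : ℤ) : ℝ) + 2 * d) := ⟨_, rfl⟩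
    have e5 : ((-t : ℤ) : ℝ) + 2 * d = -z := by rw [hz]; ring
    rw [e5]
    have hz1 : z ≤ k - A := by rw [hz]; push_cast; linarith
    have h6 : (q * P - 1) * z ≤ (q * P - 1) * (k - A) := mul_le_mul_of_nonneg_left hz1 hR.le
    have h7 : (q * P - 1) * ((k : ℝ) + 1) ≤ (q * P - 1) * (M - N * g) :=
      mul_le_mul_of_nonneg_left h5 hR.le
    have h8 : (q * P - 1) * (X - A) ≤ (q * P - 1) * 1 :=
      mul_le_mul_of_nonneg_left (by linarith) hR.le
    have h9 : (q * P - 1) * z ≤ X - P := by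
      have e6 : (q * P - 1) * ((k : ℝ) - A) = (q * P - 1) * ((k : ℝ) + 1) + (q * P - 1) * (X - A) -
        (q * P - 1) * X - (q * P - 1) * 1 := by ring
      rw [e6] at h6
      linarith
    have e7 : ((g : ℝ) - q * -z + 1) * P = P * g + ((q * P - 1) * z + z) + P := by ring
    rw [e7]
    rw [hX] at h9
    linarith

theorem Emp_F1 (h : Par q s L P N) {ι : Type} {w : ι → ℕ} {d : ℕ}
    (hE : Emp w (F2 q L P d)) : Emp w (F1 q L d) := by
  refine Emp_flat 1 (-s) 1 0 (by ring) ?_ hE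
  rintro ⟨c, y⟩ T k ⟨h1, h2, h3⟩ ⟨h4, h5, h6⟩ hk
  simp only at h1 h2 h3 h4 h5 h6
  have hP := h.P0
  have hkR : (k : ℝ) ≤ T := by exact_mod_cast hk
  have hyR : (0 : ℝ) ≤ y := by exact_mod_cast h1
  -- `w = u - s y`
  obtain ⟨e, he⟩ : ∃ e : ℤ, e = 1 * c + -s * y := ⟨_, rfl⟩
  have hc : c = e + s * y := by rw [he]; ring
  -- `(y + T) P ≤ L d - w`
  have h7 : ((y : ℝ) + T) * P ≤ L * d - (e + 2 * d) := by
    have e1 : ((c - -s * T : ℤ) : ℝ) + 2 * d = e + 2 * d + s * (y + T) := by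
      rw [hc]; push_cast; ring
    have e2 : ((y + 1 * T : ℤ) : ℝ) = y + T := by push_cast; ring
    rw [e1, e2] at h6
    rw [h.hP]
    linarith
  refine ⟨by simp, ?_, ?_⟩
  · intro _
    simp only
    rw [← he]
    push_cast
    have h8 : P * (k : ℝ) ≤ (y + T) * P := by
      rw [mul_comm]; exact mul_le_mul_of_nonneg_right (by linarith) hP.le
    linarith
  · intro _
    simp only
    rw [← he]
    push_cast
    -- `y ≥ 1 - q w`
    have h9 : 1 - q * (e + 2 * d) ≤ y := by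
      have e3 : q * (c + 2 * d) = q * (e + 2 * d) + 2 * y := by
        rw [hc]
        linear_combination y * h.hqs
      rw [e3] at h2
      omega
    have h9R : 1 - (q : ℝ) * (e + 2 * d) ≤ y := by exact_mod_cast h9
    have h10 : ((k : ℝ) - q * (e + 2 * d) + 1) * P ≤ (y + T) * P :=
      mul_le_mul_of_nonneg_right (by linarith) hP.le
    linarith

theorem Sur_F1 (h : Par q s L P N) {ι : Type} [Fintype ι] {w : ι → ℕ} {d : ℕ}
    (hE : Sur w (F2 q L P d)) : Sur w (F1 q L d) := by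
  refine Sur_flat 1 (-s) 1 0 (by ring) ?_ hE
  rintro ⟨e, g⟩ ⟨h1, h2, h3⟩
  simp only at h1 h2 h3
  have hP := h.P0
  have hq := h.hq
  refine ⟨h1, ?_⟩
  -- the point with parameter `t` is `(e + s t, t)`
  have main : ∀ t : ℤ, 0 ≤ t → 1 - q * (e + 2 * d) ≤ t → ((t : ℝ) * P ≤ L * d - (e + 2 * d)) →
      (1 * e - -s * t, 0 * e + 1 * t) ∈ F1 q L d := by
    intro t ht1 ht2 ht3
    refine ⟨by simp only; omega, ?_, ?_⟩
    · simp only
      have e3 : q * (1 * e - -s * t + 2 * d) = q * (e + 2 * d) + 2 * t := by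
        linear_combination t * h.hqs
      rw [e3]
      omega
    · simp only
      push_cast
      rw [h.hP] at ht3
      linarith
  rcases le_or_gt 1 (e + 2 * d) with hw | hw
  · refine ⟨0, fun t ht1 ht2 => main t ht1 ?_ ?_⟩
    · have : 1 ≤ q * (e + 2 * d) := by nlinarith
      omega
    · have h4 := h2 hw
      have h5 : (t : ℝ) ≤ g := by
        have : t ≤ g := by simpa using ht2
        exact_mod_cast this
      have h6 : (t : ℝ) * P ≤ g * P := mul_le_mul_of_nonneg_right h5 hP.le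
      linarith
  · have hw0 : e + 2 * d ≤ 0 := by omega
    have hqw : q * (e + 2 * d) ≤ 0 := mul_nonpos_of_nonneg_of_nonpos (by omega) hw0
    refine ⟨1 - q * (e + 2 * d), fun t ht1 ht2 => main t (by omega) ht1 ?_⟩
    have h4 := h3 hw0
    simp only at ht2
    have h5 : (t : ℝ) ≤ g - q * (e + 2 * d) + 1 := by
      have : (t : ℝ) ≤ 1 - q * (e + 2 * d) + g := by exact_mod_cast ht2
      linarith
    have h6 : (t : ℝ) * P ≤ (g - q * (e + 2 * d) + 1) * P := mul_le_mul_of_nonneg_right h5 hP.le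
    linarith

theorem Emp_T (h : Par q s L P N) {ι : Type} {w : ι → ℕ} {d : ℕ} (hd : ¬ 3 ∣ d)
    (hE : Emp w (F1 q L d)) :
    Emp w (Reg (-((d : ℝ) * (1 + (4 - L)))) (d * (2 - (4 - L))) (3 * (1 + (4 - L)))
      (3 * (2 - (4 - L)))) := by
  refine Emp_flat 1 (-6) 1 0 (by ring) ?_ hE
  rintro ⟨i, j⟩ T k ⟨h1, h2, h3⟩ ⟨h4, h5, h6⟩ hk
  simp only at h1 h2 h3 h4 h5 h6
  have hL3 := h.h3
  have hq := h.qR
  have hLL := h.hL
  have hkR : (k : ℝ) ≤ T := by exact_mod_cast hk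
  have hjR : (0 : ℝ) ≤ j := by exact_mod_cast h1
  obtain ⟨u, hu⟩ : ∃ u : ℤ, u = 1 * i + -6 * j + 2 * d := ⟨_, rfl⟩
  have huR : (i : ℝ) = u + 6 * j - 2 * d := by rw [hu]; push_cast; ring
  obtain ⟨D, hD⟩ : ∃ D : ℤ, D = d - 3 * j := ⟨_, rfl⟩
  have hD0 : D ≠ 0 := by
    intro h0
    apply hd
    have : ((3 : ℕ) : ℤ) ∣ (d : ℤ) := ⟨j, by push_cast; omega⟩
    exact_mod_cast this
  have hDR : (D : ℝ) = d - 3 * j := by rw [hD]; push_cast; ring
  have h7 : (L - 3) * D ≤ u := by rw [hDR]; linarith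
  have h8 : (u : ℝ) ≤ L * (D - 3 * T) := by
    rw [hDR]; push_cast at h6; linarith
  -- `T < q u`
  have h9 : T < q * u := by
    have h10 : (T : ℝ) ≤ q * u := by
      -- multiply by `3`
      have h11 : (q : ℝ) * L * ((L - 3) * D) ≤ q * L * u :=
        mul_le_mul_of_nonneg_left h7 (by positivity)
      have h12 : (q : ℝ) * (L - 3) * u ≤ q * (L - 3) * (L * (D - 3 * T)) :=
        mul_le_mul_of_nonneg_left h8 (mul_nonneg (by linarith) (by linarith))
      have e1 : (q : ℝ) * L * ((L - 3) * D) = D := by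
        calc (q : ℝ) * L * ((L - 3) * D) = (q * L * (L - 3)) * D := by ring
          _ = D := by rw [hLL, one_mul]
      have e2 : (q : ℝ) * (L - 3) * (L * (D - 3 * T)) = D - 3 * T := by
        calc (q : ℝ) * (L - 3) * (L * (D - 3 * T)) = (q * L * (L - 3)) * (D - 3 * T) := by ring
          _ = D - 3 * T := by rw [hLL, one_mul]
      rw [e1] at h11
      rw [e2] at h12
      linarith
    have h10' : T ≤ q * u := by exact_mod_cast h10
    rcases h10'.lt_or_eq with h13 | h13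
    · exact h13
    · exfalso
      have h11 : (q : ℝ) * L * ((L - 3) * D) ≤ q * L * u :=
        mul_le_mul_of_nonneg_left h7 (by positivity)
      have h12 : (q : ℝ) * (L - 3) * u ≤ q * (L - 3) * (L * (D - 3 * T)) :=
        mul_le_mul_of_nonneg_left h8 (mul_nonneg (by linarith) (by linarith))
      have e1 : (q : ℝ) * L * ((L - 3) * D) = D := by
        calc (q : ℝ) * L * ((L - 3) * D) = (q * L * (L - 3)) * D := by ring
          _ = D := by rw [hLL, one_mul]
      have e2 : (q : ℝ) * (L - 3) * (L * (D - 3 * T)) = D - 3 * T := by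
        calc (q : ℝ) * (L - 3) * (L * (D - 3 * T)) = (q * L * (L - 3)) * (D - 3 * T) := by ring
          _ = D - 3 * T := by rw [hLL, one_mul]
      rw [e1] at h11
      rw [e2] at h12
      have h13R : (T : ℝ) = q * u := by exact_mod_cast h13
      have h14 : (q : ℝ) * L * u = D := by linarith
      rcases eq_or_ne (q * u) 0 with hqu | hqu
      · have : (q : ℝ) * u = 0 := by exact_mod_cast hqu
        have h15 : (D : ℝ) = 0 := by
          rw [← h14]
          calc (q : ℝ) * L * u = L * (q * u) := by ring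
            _ = 0 := by rw [this, mul_zero]
        exact hD0 (by exact_mod_cast h15)
      · apply h.hirr
        refine ⟨(D : ℚ) / ((q * u : ℤ) : ℚ), ?_⟩
        push_cast
        have hne : (q : ℝ) * u ≠ 0 := by exact_mod_cast hqu
        rw [div_eq_iff hne]
        linarith
  refine ⟨by simp, ?_, ?_⟩
  · simp only
    rw [← hu]
    omega
  · simp only
    have e3 : ((1 * i + -6 * j : ℤ) : ℝ) + 2 * d = u := by rw [hu]; push_cast; ring
    rw [e3]
    push_cast
    have h15 : L * (D - 3 * T) ≤ L * (d - 3 * k) :=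
      mul_le_mul_of_nonneg_left (by rw [hDR]; linarith) (by linarith)
    linarith

theorem Sur_T (h : Par q s L P N) {ι : Type} [Fintype ι] {w : ι → ℕ} {d : ℕ}
    (hE : Sur w (F1 q L d)) :
    Sur w (Reg (-((d : ℝ) * (1 + (4 - L)))) (d * (2 - (4 - L))) (3 * (1 + (4 - L)))
      (3 * (2 - (4 - L)))) := by
  refine Sur_flat 1 (-6) 1 0 (by ring) ?_ hE
  rintro ⟨c, y⟩ ⟨h1, h2, h3⟩
  simp only at h1 h2 h3
  have hL3 := h.h3
  have hq := h.qR
  have hLL := h.hL
  refine ⟨h1, ?_⟩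
  obtain ⟨u, hu⟩ : ∃ u : ℤ, u = c + 2 * d := ⟨_, rfl⟩
  rw [← hu] at h2
  have huR : (c : ℝ) + 2 * d = u := by rw [hu]; push_cast; ring
  rw [huR] at h3
  -- `Z = (d - u / L) / 3`
  obtain ⟨Z, hZ⟩ : ∃ Z : ℝ, Z = (d - (q * (L - 3)) * u) / 3 := ⟨_, rfl⟩
  have hA1 := Int.floor_le Z
  have hA2 := Int.lt_floor_add_one Z
  obtain ⟨A, hA⟩ : ∃ A : ℤ, A = ⌊Z⌋ := ⟨_, rfl⟩
  have hyZ : (y : ℝ) ≤ Z := by
    have h4 : (q : ℝ) * (L - 3) * u ≤ q * (L - 3) * (L * (d - 3 * y)) :=
      mul_le_mul_of_nonneg_left h3 (mul_nonneg (by linarith) (by linarith))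
    have e2 : (q : ℝ) * (L - 3) * (L * (d - 3 * y)) = d - 3 * y := by
      calc (q : ℝ) * (L - 3) * (L * (d - 3 * y)) = (q * L * (L - 3)) * (d - 3 * y) := by ring
        _ = d - 3 * y := by rw [hLL, one_mul]
    rw [e2] at h4
    rw [hZ]
    linarith
  have hyA : y ≤ A := by rw [hA]; exact Int.le_floor.2 hyZ
  rw [← hA] at hA1 hA2
  refine ⟨A - y, fun t ht1 ht2 => ?_⟩
  simp only at ht2
  have ht1R : (A : ℝ) - y ≤ t := by exact_mod_cast ht1
  have ht2R : (t : ℝ) ≤ A := by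
    have : t ≤ A := by omega
    exact_mod_cast this
  have hyq : (y : ℝ) + 1 ≤ q * u := by exact_mod_cast h2
  refine ⟨by simp only; omega, ?_, ?_⟩
  · simp only
    push_cast
    -- `(L - 3) (d - 3 t) ≤ u`
    have h5 : (d : ℝ) - 3 * t ≤ q * L * u := by
      have h6 : Z - q * u ≤ t := by linarith
      rw [hZ] at h6
      linarith
    have h7 : (L - 3) * ((d : ℝ) - 3 * t) ≤ (L - 3) * (q * L * u) :=
      mul_le_mul_of_nonneg_left h5 (by linarith)
    have e3 : (L - 3) * (q * L * u) = u := by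
      calc (L - 3) * (q * L * u) = (q * L * (L - 3)) * u := by ring
        _ = u := by rw [hLL, one_mul]
    rw [e3] at h7
    linarith
  · simp only
    push_cast
    have h5 : (q : ℝ) * (L - 3) * u ≤ d - 3 * t := by
      have h6 : (t : ℝ) ≤ Z := by linarith
      rw [hZ] at h6
      linarith
    have h7 : L * (q * (L - 3) * u) ≤ L * (d - 3 * t) :=
      mul_le_mul_of_nonneg_left h5 (by linarith)
    have e3 : L * (q * (L - 3) * u) = u := by
      calc L * (q * (L - 3) * u) = (q * L * (L - 3)) * u := by ring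
        _ = u := by rw [hLL, one_mul]
    rw [e3] at h7
    linarith

end Pool.Agent.TH759.EV
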