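import Pool.Agent.H15.G.R_seed8.TH759.EV.Chain
import Pool.Agent.H15.G.R_seed8.TH603.EL.Fin

/-! Fat points at `11` and at `13` general points. -/

set_option autoImplicit false

namespace Pool.Agent.TH759.EV

open Finset Pool.Agent.TH176.Nag Pool.Agent.TH603.Sur Pool.Agent.H932R3

/-- the real slope -/
noncomputable def LL (N : ℕ) : ℝ := (3 + √(N : ℝ)) / 2

theorem sq_sqrt' (N : ℕ) : √(N : ℝ) * √(N : ℝ) = N := Real.mul_self_sqrt (Nat.cast_nonneg _)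

theorem par_of {N : ℕ} {q s : ℤ} (hp : N.Prime) (hq : 1 ≤ q) (hs : 1 ≤ s) (hqs : q * s = 2)
    (hN : (N : ℤ) = 9 + 2 * s) : Par q s (LL N) (√(N : ℝ) * LL N) N := by
  have h1 : (N : ℝ) = 9 + 2 * s := by exact_mod_cast hN
  have hqsR : (q : ℝ) * s = 2 := by exact_mod_cast hqs
  have hsR : (1 : ℝ) ≤ s := by exact_mod_cast hs
  have hs2 : s ≤ 2 := by nlinarith
  have hs2R : (s : ℝ) ≤ 2 := by exact_mod_cast hs2
  have hr := sq_sqrt' N
  have hr3 : 3 < √(N : ℝ) := Real.lt_sqrt_of_sq_lt (by rw [h1]; linarith)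
  have hr5 : √(N : ℝ) < 5 := by
    rw [Real.sqrt_lt' (by norm_num), h1]; linarith
  refine ⟨hq, hs, hqs, ?_, ?_, ?_, ?_, hN, ?_⟩
  · unfold LL
    have e : (q : ℝ) * ((3 + √(N : ℝ)) / 2) * ((3 + √(N : ℝ)) / 2 - 3) =
        q * (√(N : ℝ) * √(N : ℝ) - 9) / 4 := by ring
    rw [e, hr, h1]
    linear_combination (1 / 2) * hqsR
  · unfold LL; linarith
  · unfold LL; linarith
  · unfold LL
    have e : √(N : ℝ) * ((3 + √(N : ℝ)) / 2) = (3 * √(N : ℝ) + √(N : ℝ) * √(N : ℝ)) / 2 := by ring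
    rw [e, hr, h1]
    ring
  · unfold LL
    have h2 : Irrational √(N : ℝ) := hp.irrational_sqrt
    have h3 := (h2.natCast_add 3).div_natCast (m := 2) (by norm_num)
    push_cast at h3
    exact h3

/-- the condition on the degree -/
theorem cond_iff {N : ℕ} {q s : ℤ} (h : Par q s (LL N) (√(N : ℝ) * LL N) N) (d W : ℝ) :
    ((N : ℝ) * ((q : ℝ) * LL N * d - 1) < q * (√(N : ℝ) * LL N) * W ↔
      √(N : ℝ) * (2 * d + 3) < N + 2 * W) := by
  have hq := h.qR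
  have h3 := h.h3
  have h1 := h.hL
  have hr := sq_sqrt' N
  have hP := h.P0
  have hr0 : 0 < √(N : ℝ) := by
    by_contra hcon
    have h5 : √(N : ℝ) = 0 := le_antisymm (not_lt.1 hcon) (Real.sqrt_nonneg _)
    rw [h5, zero_mul] at hP
    exact lt_irrefl _ hP
  have h4 : 0 < √(N : ℝ) * (q * LL N) := by positivity
  have e1 : (N : ℝ) * ((q : ℝ) * LL N * d - 1) = √(N : ℝ) * (q * LL N) *
      (√(N : ℝ) * (d - (LL N - 3))) := by
    have : (q : ℝ) * LL N * d - 1 = q * LL N * (d - (LL N - 3)) := by rw [mul_sub, h1]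
    rw [this]
    nth_rewrite 1 [← hr]
    ring
  have e2 : (q : ℝ) * (√(N : ℝ) * LL N) * W = √(N : ℝ) * (q * LL N) * W := by ring
  rw [e1, e2, mul_lt_mul_iff_right₀ h4]
  have e3 : √(N : ℝ) * (d - (LL N - 3)) = √(N : ℝ) * d - (√(N : ℝ) * √(N : ℝ) - 3 * √(N : ℝ)) / 2 := by
    unfold LL; ring
  rw [e3, hr]
  constructor
  · intro h5; linarith
  · intro h5; linarith

theorem Emp_pl {N : ℕ} {q s : ℤ} (h : Par q s (LL N) (√(N : ℝ) * LL N) N) {ι : Type} [Fintype ι]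
    (hc : Fintype.card ι = N) {w : ι → ℕ} {d : ℕ} (hd : ¬ 3 ∣ d)
    (hdm : √(N : ℝ) * (2 * d + 3) < N + 2 * ∑ i, (w i : ℝ)) : Emp w (TZ d) := by
  have h3 := h.h3
  have h4 := h.h4
  refine Pool.Agent.TH641.NW.keyE ι w d (4 - LL N) (by linarith) (by linarith)
    (Emp_T h hd (Emp_F1 h (Emp_F2 h hc ((cond_iff h _ _).2 ?_))))
  push_cast
  exact hdm

theorem Sur_pl {N : ℕ} {q s : ℤ} (h : Par q s (LL N) (√(N : ℝ) * LL N) N) {ι : Type} [Fintype ι]
    (hc : Fintype.card ι = N) {w : ι → ℕ} {b : ℕ} (hb : ∀ i, w i ≤ b + 1) {d : ℕ}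
    (hdm : N + 2 * ((∑ i, max (w i) b : ℕ) : ℝ) ≤ √(N : ℝ) * (2 * d + 3)) : Sur w (TZ d) := by
  have h3 := h.h3
  have h4 := h.h4
  have hirr : Irrational (4 - LL N) := by
    have := h.hirr.natCast_sub 4
    push_cast at this
    exact this
  refine Pool.Agent.TH641.NW.keyS ι w d (4 - LL N) (by linarith) (by linarith) hirr
    (Sur_T h (Sur_F1 h (Sur_F2 h hc hb ?_)))
  have h5 := (not_congr (cond_iff h d ((∑ i, max (w i) b : ℕ) : ℝ))).2 (not_lt.2 hdm)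
  exact not_lt.1 h5

/-- **Fat points at `N = 9 + 2 s` general points, `s = 1, 2`.** -/
theorem expDim_par {N : ℕ} {q s : ℤ} (h : Par q s (LL N) (√(N : ℝ) * LL N) N) (w : Fin N → ℕ) :
    ∃ F : MvPolynomial (Fin N × Fin 2) ℚ, F ≠ 0 ∧ ∀ {K : Type} [Field K] [CharZero K]
      (P : Fin N → Fin 2 → K),
      MvPolynomial.aeval (fun ij : Fin N × Fin 2 => P ij.1 ij.2) F ≠ 0 →
      ∀ d : ℕ, ((¬ 3 ∣ d ∧ √(N : ℝ) * (2 * d + 3) < N + 2 * ∑ i, (w i : ℝ)) ∨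
          √(N : ℝ) * d < ∑ i, (w i : ℝ) ∨
          ∃ b : ℕ, (∀ i, w i ≤ b + 1) ∧
            N + 2 * ((∑ i, max (w i) b : ℕ) : ℝ) ≤ √(N : ℝ) * (2 * d + 3)) →
        ExpDim K w P d := by
  have hs := h.hs
  have hq := h.hq
  have hqs := h.hqs
  have hN := h.hN
  have h1 : (N : ℝ) = 9 + 2 * s := by exact_mod_cast hN
  have hsR : (1 : ℝ) ≤ s := by exact_mod_cast hs
  have hr1 : 1 ≤ √(N : ℝ) := Real.one_le_sqrt.2 (by rw [h1]; linarith)
  obtain ⟨F, hF, hF'⟩ := expDim_two (n := N) (w := w)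
    (A := fun d => (¬ 3 ∣ d ∧ √(N : ℝ) * (2 * d + 3) < N + 2 * ∑ i, (w i : ℝ)) ∨
      √(N : ℝ) * d < ∑ i, (w i : ℝ))
    (B := fun d => ∃ b : ℕ, (∀ i, w i ≤ b + 1) ∧
      N + 2 * ((∑ i, max (w i) b : ℕ) : ℝ) ≤ √(N : ℝ) * (2 * d + 3)) (N + ∑ i, w i) (by
      intro d hd
      have h7 : (d : ℝ) ≤ ((N + ∑ i, w i : ℕ) : ℝ) := by
        push_cast
        have h8 : (0 : ℝ) ≤ d := Nat.cast_nonneg _
        have h9 : (0 : ℝ) ≤ N := Nat.cast_nonneg _
        rcases hd with ⟨_, hd⟩ | hd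
        · have h10 : 2 * (d : ℝ) + 3 ≤ √(N : ℝ) * (2 * d + 3) :=
            le_mul_of_one_le_left (by linarith) hr1
          linarith
        · have h10 : (d : ℝ) ≤ √(N : ℝ) * d := le_mul_of_one_le_left h8 hr1
          linarith
      exact_mod_cast h7) (by
      intro d hd
      rcases hd with ⟨hd3, hd⟩ | hd
      · exact Emp_pl h (Fintype.card_fin N) hd3 hd
      · refine Pool.Agent.TH603.EL.Emp_plane (ι := Fin N) (w := w) (d := d) ?_ ?_
        · rw [Fintype.card_fin]; omega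
        · rw [Fintype.card_fin]; exact hd) (by
      rintro d ⟨b, hb, hd⟩
      exact Sur_pl h (Fintype.card_fin N) hb hd)
  exact ⟨F, hF, fun {K} _ _ P hP d hd => hF' P hP d (by
    rcases hd with hd | hd | hd
    · exact Or.inl (Or.inl hd)
    · exact Or.inl (Or.inr hd)
    · exact Or.inr hd)⟩

/-- **Fat points at eleven and thirteen general points**, all multiplicities. -/
theorem expDim_all {N : ℕ} (hN : N = 11 ∨ N = 13) (w : Fin N → ℕ) :
    ∃ F : MvPolynomial (Fin N × Fin 2) ℚ, F ≠ 0 ∧ ∀ {K : Type} [Field K] [CharZero K]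
      (P : Fin N → Fin 2 → K),
      MvPolynomial.aeval (fun ij : Fin N × Fin 2 => P ij.1 ij.2) F ≠ 0 →
      ∀ d : ℕ, ((¬ 3 ∣ d ∧ √(N : ℝ) * (2 * d + 3) < N + 2 * ∑ i, (w i : ℝ)) ∨
          √(N : ℝ) * d < ∑ i, (w i : ℝ) ∨
          ∃ b : ℕ, (∀ i, w i ≤ b + 1) ∧
            N + 2 * ((∑ i, max (w i) b : ℕ) : ℝ) ≤ √(N : ℝ) * (2 * d + 3)) →
        ExpDim K w P d := by
  rcases hN with rfl | rfl
  · exact expDim_par (par_of (q := 2) (s := 1) (by norm_num) (by norm_num) (by norm_num)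
      (by norm_num) (by norm_num)) w
  · exact expDim_par (par_of (q := 1) (s := 2) (by norm_num) (by norm_num) (by norm_num)
      (by norm_num) (by norm_num)) w

/-- nearly equal multiplicities -/
theorem expDim_near {N : ℕ} (hN : N = 11 ∨ N = 13) {m : ℕ} {w : Fin N → ℕ}
    (hw : ∀ i, w i = m ∨ w i = m + 1) :
    ∃ F : MvPolynomial (Fin N × Fin 2) ℚ, F ≠ 0 ∧ ∀ {K : Type} [Field K] [CharZero K]
      (P : Fin N → Fin 2 → K),
      MvPolynomial.aeval (fun ij : Fin N × Fin 2 => P ij.1 ij.2) F ≠ 0 →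
      ∀ d : ℕ, (¬ 3 ∣ d ∨ √(N : ℝ) * d < ∑ i, (w i : ℝ) ∨
          N + 2 * ∑ i, (w i : ℝ) ≤ √(N : ℝ) * (2 * d + 3)) →
        ExpDim K w P d := by
  obtain ⟨F, hF, hF'⟩ := expDim_all hN w
  refine ⟨F, hF, fun {K} _ _ P hP d hd => hF' P hP d ?_⟩
  rcases le_or_gt (N + 2 * ∑ i, (w i : ℝ)) (√(N : ℝ) * (2 * d + 3)) with h1 | h1
  · right; right
    refine ⟨m, fun i => by rcases hw i with h | h <;> omega, ?_⟩
    have e : ∑ i, max (w i) m = ∑ i, w i :=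
      Finset.sum_congr rfl fun i _ => by rcases hw i with h | h <;> omega
    rw [e]
    push_cast
    exact h1
  · rcases hd with hd | hd | hd
    · exact Or.inl ⟨hd, h1⟩
    · exact Or.inr (Or.inl hd)
    · exact absurd hd (not_le.2 h1)

end Pool.Agent.TH759.EV
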