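import Pool.Agent.H15.G.R_seed8.TH759.EV.NRows
import Pool.Agent.H15.G.R_seed8.TH759.EV.Main
import Pool.Agent.H15.G.R_seed8.TH864.SX.Thirteen

/-!
# Thirteen points, nearly equal multiplicities, every degree
-/

set_option autoImplicit false

namespace Pool.Agent.TH759.EV

open Finset Pool.Agent.TH176.Nag Pool.Agent.TH603.Sur Pool.Agent.TH603.Cut Pool.Agent.TH469.SX

/-- emptiness or independence in the block -/
theorem dich_blk {ι : Type} [Fintype ι] [DecidableEq ι] {w : ι → ℕ} (i0 : ι) {M m : ℕ} {K D : ℝ}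
    (hK : 0 < K) (hK2 : K ^ 2 = M * K + M) (hw0 : w i0 = m) {n1 : ℤ} {e e' : ℝ}
    (hD : D = (K + 2) * m + e) (hn1 : e' = e - n1)
    (he0 : 0 ≤ e) (heK : e < K + 2) (he'0 : 0 ≤ e') (h1 : e' * (K + 1) + e < K + 2)
    (hsum : ∀ k : ℕ, k < m → ((∑ i, (w i - k) : ℕ) : ℤ) = ((M : ℤ) + 4) * ((m : ℤ) - k) + n1)
    (hle : ∀ i, w i ≤ m + 1)
    (hm : n1 ≤ ((∑ i, (w i - m) : ℕ) : ℤ))
    (hm' : (∃ i, m < w i) → ((∑ i, (w i - m) : ℕ) : ℤ) ≤ n1) :
    Emp w (Fl 1 K D ∪ {((0, 0) : ℤ × ℤ)}) ∨ Sur w (Fl 1 K D) := by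
  have hK1 : 0 < K + 1 := by linarith
  by_cases hdef : ∃ k : ℕ, k < m ∧ ⌊D - (K + 2) * k⌋ + ⌊(D - (K + 2) * k - 1) / (K + 1)⌋ <
      ((M : ℤ) + 4) * ((m : ℤ) - k) + n1
  · left
    have hs : e - 1 < ∑ i, ((w i - m : ℕ) : ℝ) := by
      have hmR : (n1 : ℝ) ≤ ∑ i, ((w i - m : ℕ) : ℝ) := by exact_mod_cast hm
      have hm0 : (0 : ℝ) ≤ ∑ i, ((w i - m : ℕ) : ℝ) := sum_nonneg fun i _ => Nat.cast_nonneg _
      rcases le_or_gt n1 0 with h2 | h2
      · have h3 : (n1 : ℝ) ≤ 0 := by exact_mod_cast h2
        have h4 : e * (K + 1) ≤ e' * (K + 1) := mul_le_mul_of_nonneg_right (by linarith) hK1.le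
        have h5 : e * (K + 2) < 1 * (K + 2) := by linarith
        have h6 := lt_of_mul_lt_mul_right h5 (by linarith)
        linarith
      · have h3 : (1 : ℝ) ≤ (n1 : ℝ) := by exact_mod_cast h2
        have h5 : e' * (K + 1) < 1 * (K + 1) := by linarith
        have h6 := lt_of_mul_lt_mul_right h5 hK1.le
        linarith
    refine (step3_near i0 hK hK2 hw0 hD hn1 he0 heK he'0 h1 (fun k hk => ?_) hs hdef).comap
      1 (-1) 0 1 0 0 (by norm_num) ?_
    · have h2 := hsum k hk
      have h3 : (((∑ i, (w i - k) : ℕ) : ℤ) : ℝ) = ((((M : ℤ) + 4) * ((m : ℤ) - k) + n1 : ℤ) : ℝ) := by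
        rw [h2]
      push_cast at h3
      rw [h3]
    · rintro ⟨t, j⟩ h
      rcases h with ⟨h3, h4, h5, h6⟩ | h3
      · left
        simp only at h3 h4 h5 h6
        refine ⟨by simp only; push_cast at h5; omega, by simp only; omega, ?_⟩
        simp only
        push_cast
        linarith
      · right
        rw [Set.mem_singleton_iff, Prod.mk.injEq] at h3
        rw [Set.mem_singleton_iff, h3.1, h3.2]
        norm_num
  · right
    push Not at hdef
    refine Sur_rows_w (p := 2) (q := 1) (by norm_num) hK fun k hk => ?_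
    have e1 : ∀ Y : ℝ, (Y - (K + (2 : ℕ))) / (((1 : ℕ) : ℝ) * (K + (2 : ℕ)) - 1) = (Y - 1) / (K + 1) - 1 := by
      intro Y
      have : ((1 : ℕ) : ℝ) * (K + (2 : ℕ)) - 1 = K + 1 := by push_cast; ring
      rw [this]
      field_simp
      push_cast
      ring
    rw [e1, Int.floor_sub_one]
    push_cast
    obtain ⟨i, hi⟩ := hk
    have hkm : k ≤ m := by have := hle i; omega
    rcases hkm.lt_or_eq with hkm | hkm
    · have h2 := hsum k hkm
      have h3 := hdef k hkm
      push_cast at h2
      omega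
    · subst hkm
      have h2 := hm' ⟨i, hi⟩
      have h3 : 0 < ∑ i, (w i - k) := sum_pos' (fun _ _ => Nat.zero_le _) ⟨i, mem_univ _, by omega⟩
      have h4 : 1 ≤ n1 := by omega
      have h4R : (1 : ℝ) ≤ n1 := by exact_mod_cast h4
      have h5 : n1 ≤ ⌊D - (K + 2) * k⌋ := by
        rw [Int.le_floor, hD]
        linarith
      have h6 : 0 ≤ ⌊(D - (K + 2) * k - 1) / (K + 1)⌋ := by
        apply Int.floor_nonneg.2
        apply div_nonneg _ hK1.le
        rw [hD]
        linarith
      push_cast at h2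
      omega

open Pool.Agent.TH864.SX in
/-- **Thirteen points**: emptiness or independence -/
theorem dich_near {w : Fin 13 → ℕ} {m : ℕ} (hw : ∀ i, w i = m ∨ w i = m + 1) {i0 : Fin 13}
    (hw0 : w i0 = m) (d : ℕ) : Emp w (TZ d) ∨ Sur w (TZ d) := by
  have hs2 := sq13
  obtain ⟨s, hs⟩ : ∃ s : ℝ, s = √(13 : ℝ) := ⟨_, rfl⟩
  rw [← hs] at hs2
  have hs3 : 3.6 < s := by
    rw [hs, Real.lt_sqrt (by norm_num)]; norm_num
  have hs4 : s < 3.61 := by
    rw [hs, Real.sqrt_lt' (by norm_num)]; norm_num
  -- the multiplicities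
  obtain ⟨n1, hn1⟩ : ∃ n1 : ℕ, n1 = ∑ i, (w i - m) := ⟨_, rfl⟩
  have hS : ∀ k : ℕ, k ≤ m → ∑ i, (w i - k) = 13 * (m - k) + n1 := by
    intro k hk
    rw [hn1]
    have : 13 * (m - k) = ∑ _i : Fin 13, (m - k) := by simp
    rw [this, ← sum_add_distrib]
    refine sum_congr rfl fun i _ => ?_
    rcases hw i with h | h <;> omega
  have hW : ∑ i, w i = 13 * m + n1 := by
    have := hS 0 (Nat.zero_le _)
    simpa using this
  have hn12 : n1 ≤ 12 := by
    have h1 : n1 = ∑ i ∈ univ.erase i0, (w i - m) := by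
      rw [hn1, ← Finset.add_sum_erase univ _ (mem_univ i0), hw0]
      simp
    rw [h1]
    have h2 : ∑ i ∈ univ.erase i0, (w i - m) ≤ ∑ i ∈ univ.erase i0, 1 :=
      sum_le_sum fun i _ => by rcases hw i with h | h <;> omega
    have h3 : ∑ i ∈ univ.erase i0, 1 = 12 := by
      rw [sum_const, card_erase_of_mem (mem_univ _)]
      simp
    omega
  have hWR : ((∑ i, w i : ℕ) : ℝ) = 13 * m + n1 := by rw [hW]; push_cast; ring
  have hWR' : ∑ i, (w i : ℝ) = 13 * m + n1 := by rw [← hWR]; push_cast; rfl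
  have hpar : Par 1 2 (LL 13) (√((13 : ℕ) : ℝ) * LL 13) 13 :=
    par_of (q := 1) (s := 2) (by norm_num) (by norm_num) (by norm_num) (by norm_num) (by norm_num)
  have hs' : √((13 : ℕ) : ℝ) = s := by rw [hs]; norm_num
  -- large degrees
  rcases le_or_gt (13 + 2 * (13 * (m : ℝ) + n1)) (s * (2 * d + 3)) with hX | hX
  · right
    refine Sur_pl (b := m) hpar (Fintype.card_fin 13) (fun i => by rcases hw i with h | h <;> omega) ?_
    have e : ∑ i, max (w i) m = ∑ i, w i :=
      Finset.sum_congr rfl fun i _ => by rcases hw i with h | h <;> omega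
    rw [e, hWR, hs']
    push_cast
    exact hX
  by_cases hd : 3 ∣ d
  swap
  · left
    refine Emp_pl hpar (Fintype.card_fin 13) hd ?_
    rw [hWR', hs']
    push_cast
    exact hX
  rcases lt_or_ge (s * d) (13 * (m : ℝ) + n1) with hY | hY
  · left
    refine Pool.Agent.TH603.EL.Emp_plane (by rw [Fintype.card_fin]; norm_num) ?_
    rw [Fintype.card_fin, hs', hWR']
    exact hY
  -- the block
  obtain ⟨K, hK⟩ : ∃ K : ℝ, K = K13 := ⟨_, rfl⟩
  have hKs : K = 3 * (3 + s) / 2 := by rw [hK, hs]; rfl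
  have hK0 : 0 < K := by rw [hKs]; linarith
  have hK9 : K ^ 2 = (9 : ℕ) * K + (9 : ℕ) := by
    rw [hKs]; push_cast; linear_combination (9 / 4) * hs2
  have hKeq : ((1 : ℕ) : ℝ) * (K * (K - (9 : ℕ))) = (9 : ℕ) := by
    push_cast; push_cast at hK9; linear_combination hK9
  obtain ⟨D, hD⟩ : ∃ D : ℝ, D = K * d / 3 := ⟨_, rfl⟩
  obtain ⟨e, he⟩ : ∃ e : ℝ, e = D - (K + 2) * m := ⟨_, rfl⟩
  obtain ⟨L, hL⟩ : ∃ L : ℝ, L = (3 + s) / 2 := ⟨_, rfl⟩
  have hL0 : 3 < L := by rw [hL]; linarith
  have hsL : s * L = K + 2 := by rw [hL, hKs]; linear_combination (1 / 2) * hs2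
  have hLL : L * L = K + 1 := by rw [hL, hKs]; linear_combination (1 / 4) * hs2
  have hL3 : L * (L - 3) = 1 := by
    have : L * (L - 3) = L * L - 3 * L := by ring
    rw [this, hLL, hKs, hL]; ring
  have hDm : D = (K + 2) * m + e := by rw [he]; ring
  -- `s e = L (s d - 13 m)`
  have hse : s * e = L * (s * d - 13 * m) := by
    rw [he, hD]
    have h1 : K = 3 * L := by rw [hKs, hL]; ring
    have h2 : s * (3 * L * d / 3 - (K + 2) * m) = L * (s * d) - (s * (s * L)) * m := by
      rw [← hsL]; ring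
    rw [← h1] at h2
    rw [h2]
    have h3 : s * (s * L) = 13 * L := by rw [← mul_assoc, hs2]
    rw [h3]; ring
  have hlow : L * n1 ≤ s * e := by
    rw [hse]
    exact mul_le_mul_of_nonneg_left (by linarith) (by linarith)
  have hup : s * e < L * n1 + s := by
    rw [hse]
    have h1 : s * d - 13 * m < n1 + (13 - 3 * s) / 2 := by linarith
    have h2 := mul_lt_mul_of_pos_left h1 (show 0 < L by linarith)
    have h3 : L * ((n1 : ℝ) + (13 - 3 * s) / 2) = L * n1 + s := by
      rw [hL]; linear_combination (-3 / 4) * hs2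
    linarith
  have hn0 : (0 : ℝ) ≤ n1 := Nat.cast_nonneg _
  have he0 : 0 ≤ e := by
    have h1 : 0 ≤ s * e := le_trans (mul_nonneg (by linarith) hn0) hlow
    by_contra hneg
    push Not at hneg
    have := mul_neg_of_pos_of_neg (show 0 < s by linarith) hneg
    linarith
  have hwin : (e - n1) * (K + 1) + e < K + 2 := by
    have h2 := mul_lt_mul_of_pos_left hup (show 0 < L by linarith)
    have e1 : L * (s * e) = (K + 2) * e := by rw [← mul_assoc, mul_comm L s, hsL]
    have e2 : L * (L * n1 + s) = (K + 1) * n1 + (K + 2) := by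
      rw [mul_add, ← mul_assoc, hLL, mul_comm L s, hsL]
    rw [e1, e2] at h2
    linarith
  -- from the block to the plane
  have toE : Emp w (Fl 1 K D ∪ {((0, 0) : ℤ × ℤ)}) → Emp w (TZ d) := by
    intro h
    refine Emp_TZ9 num13.sl K13_lt (h.mono ?_)
    rintro p (hp | hp)
    · left
      obtain ⟨h2, h3, h4, h5⟩ := hp
      refine ⟨h2, h3, h4, ?_⟩
      rw [hD, hK]
      exact h5
    · right
      rw [hp.2]
      rfl
  have toS : Sur w (Fl 1 K D) → Sur w (TZ d) := by
    intro h
    refine Sur_TZ9 num13.sl K13_lt (h.mono ?_)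
    intro p hp
    left
    obtain ⟨h2, h3, h4, h5⟩ := hp
    refine ⟨h2, h3, h4, ?_⟩
    rw [hD, hK] at h5
    exact h5
  rcases lt_or_ge e (K + 2) with heK | heK
  · rcases lt_or_ge e n1 with hen | hen
    · left
      apply toE
      refine Emp_apex_w (p := 2) (q := 1) (M := 9) (by norm_num) hK0 hKeq (by simp) ?_ ?_ ?_
      · rw [hDm]; positivity
      · rw [hWR, hDm]
        have h2 := mul_lt_mul_of_pos_left hup (show 0 < s by linarith)
        have e1 : s * (s * e) = 13 * e := by rw [← mul_assoc, hs2]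
        have e2 : s * (L * n1 + s) = (K + 2) * n1 + 13 := by
          rw [mul_add, ← mul_assoc, hsL, hs2]
        rw [e1, e2] at h2
        push_cast
        linarith
      · intro g hg1 hg2
        push_cast at hg1 hg2 ⊢
        have h3 : (g : ℝ) < m + 1 := by
          by_contra hcon
          push Not at hcon
          have := mul_le_mul_of_nonneg_left hcon (show 0 ≤ K + 2 by linarith)
          linarith
        have h4 : (m : ℝ) < g + 1 := by
          by_contra hcon
          push Not at hcon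
          have := mul_le_mul_of_nonneg_left hcon (show 0 ≤ K + 2 by linarith)
          linarith
        have h5 : g = m := by
          have h6 : g < m + 1 := by exact_mod_cast h3
          have h7 : m < g + 1 := by exact_mod_cast h4
          omega
        subst h5
        have h6 : (n1 : ℝ) = ∑ i, ((w i - g : ℕ) : ℝ) := by rw [hn1]; push_cast; rfl
        rw [← h6]
        linarith
    · have := dich_blk (n1 := (n1 : ℤ)) (M := 9) i0 hK0 hK9 hw0 hDm rfl he0 heK
        (by push_cast; linarith) (by push_cast; exact hwin)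
        (by
          intro k hk
          rw [hS k hk.le]
          push_cast [Nat.cast_sub hk.le]
          ring)
        (fun i => by rcases hw i with h | h <;> omega)
        (by rw [hn1]) (fun _ => by rw [hn1])
      rcases this with h | h
      · exact Or.inl (toE h)
      · exact Or.inr (toS h)
  · -- `n1 = 12`, the base is `m + 1`
    have h12 : n1 = 12 := by
      by_contra hne
      have h2 : n1 ≤ 11 := by omega
      have h2R : (n1 : ℝ) ≤ 11 := by exact_mod_cast h2
      have h3 : s * (K + 2) ≤ s * e := mul_le_mul_of_nonneg_left heK (by linarith)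
      have h4 : s * (K + 2) = 13 * L := by rw [← hsL, ← mul_assoc, hs2]
      have h5 : L * n1 ≤ L * 11 := mul_le_mul_of_nonneg_left h2R (by linarith)
      have h6 : 2 * L < s := by linarith
      rw [hL] at h6
      linarith
    have h12R : (n1 : ℝ) = 12 := by exact_mod_cast h12
    obtain ⟨i1, hi1⟩ : ∃ i1, w i1 = m + 1 := by
      by_contra hcon
      push Not at hcon
      have : n1 = 0 := by
        rw [hn1]
        refine sum_eq_zero fun i _ => ?_
        rcases hw i with h | h
        · omega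
        · exact absurd h (hcon i)
      omega
    obtain ⟨e2, he2⟩ : ∃ e2 : ℝ, e2 = e - (K + 2) := ⟨_, rfl⟩
    have hse2 : s * e2 < L - 3 := by
      have h2 : s * e2 = s * e - 13 * L := by
        rw [he2, ← hsL]
        have : s * (e - s * L) = s * e - s * s * L := by ring
        rw [this, hs2]
      rw [h2]
      have h3 : s = 2 * L - 3 := by rw [hL]; ring
      rw [h12R] at hup
      linarith
    have he21 : (K + 2) * e2 < 1 := by
      have h2 := mul_lt_mul_of_pos_left hse2 (show 0 < L by linarith)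
      rw [hL3] at h2
      have e1 : L * (s * e2) = (K + 2) * e2 := by rw [← mul_assoc, mul_comm L s, hsL]
      rw [e1] at h2
      exact h2
    have he20 : 0 ≤ e2 := by rw [he2]; linarith
    have := dich_blk (n1 := -1) (M := 9) (e := e2) (e' := e2 + 1) (m := m + 1) (D := D) (K := K) i1 hK0 hK9 hi1
        (by rw [hDm, he2]; push_cast; ring) (by push_cast; ring) he20
        (by nlinarith) (by linarith) (by nlinarith)
        (by
          intro k hk
          have hk' : k ≤ m := by omega
          rw [hS k hk', h12]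
          push_cast [Nat.cast_sub hk']
          ring)
        (fun i => by rcases hw i with h | h <;> omega)
        (by
          have : (0 : ℤ) ≤ ((∑ i, (w i - (m + 1)) : ℕ) : ℤ) := Int.natCast_nonneg _
          linarith)
        (by
          rintro ⟨i, hi⟩
          exfalso
          rcases hw i with h | h <;> omega)
    rcases this with h | h
    · exact Or.inl (toE h)
    · exact Or.inr (toS h)

/-- **Thirteen points, multiplicities `m` and `m + 1`, every degree.** -/
theorem expDim_thirteen {m : ℕ} {w : Fin 13 → ℕ} (hw : ∀ i, w i = m ∨ w i = m + 1) :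
    ∃ F : MvPolynomial (Fin 13 × Fin 2) ℚ, F ≠ 0 ∧ ∀ {L : Type} [Field L] [CharZero L]
      (P : Fin 13 → Fin 2 → L), MvPolynomial.aeval (fun ij : Fin 13 × Fin 2 => P ij.1 ij.2) F ≠ 0 →
      ∀ d, Pool.Agent.H932R3.ExpDim L w P d := by
  apply Pool.Agent.TH864.SX.expDim_of_or
  intro d
  by_cases h : ∃ i0, w i0 = m
  · obtain ⟨i0, h0⟩ := h
    exact dich_near hw h0 d
  · push Not at h
    have h1 : ∀ i, w i = m + 1 := fun i => by
      rcases hw i with h2 | h2
      · exact absurd h2 (h i)
      · exact h2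
    exact dich_near (m := m + 1) (fun i => Or.inl (h1 i)) (h1 0) d

end Pool.Agent.TH759.EV
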