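import Pool.Agent.H15.G.R_seed8.TH147.S13.LineTau
import Pool.Agent.H15.G.R_seed8.TH470.S13.LeadForm

/-!
# The leading form and the points on `Y = 1`, arbitrary multiplicities

The statements of `TH147.S13.LineTau` and `TH470.S13.LeadForm` with arbitrary multiplicities.
-/

set_option autoImplicit false

namespace Pool.Agent.TH759.EV

open Finset Pool.Agent.TH176.Nag Pool.Agent.TH978.S13 Pool.Agent.TH978.S13.LeadForm_

theorem line_tau' {ι : Type} [Fintype ι] (x : ι → ℚ) (hx : Function.Injective x) (hx0 : ∀ i, x i ≠ 0)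
    {w : ι → ℕ} {h : (ℤ × ℤ) →₀ ℚ} (hL : ∀ i, LM h (x i) 1 (w i)) {c : ℤ}
    (hc : ∀ p ∈ h.support, c ≤ p.1)
    (hpos : ∀ p ∈ h.support, 0 ≤ p.2 - p.1 + 1) {k : ℕ} {β : ℝ}
    (hβ : ∀ p ∈ h.support, (k : ℤ) ≤ p.2 - p.1 + 1 → (p.1 : ℝ) ≤ β)
    (hlen : β - c < ∑ i, ((w i - k : ℕ) : ℝ)) :
    tau h c (fun b => dsc k (b - c + 1)) = 0 := by
  classical
  let H : ℤ →₀ ℚ := ∑ p ∈ h.support,
    Finsupp.single p.1 (h p * dsc k ((p.2 : ℚ) - (p.1 : ℚ) + 1))
  have hHa : ∀ a : ℤ, H a = ∑ p ∈ h.support,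
      if p.1 = a then h p * dsc k ((p.2 : ℚ) - (p.1 : ℚ) + 1) else 0 := by
    intro a
    simp only [H, Finsupp.coe_finsetSum, Finset.sum_apply, Finsupp.single_apply]
  have hH0 : H = 0 := by
    refine Pool.Agent.TH819.NagA.one_var x hx hx0 (fun i => w i - k) H (c : ℝ) β ?_ ?_ ?_
    · intro a ha
      have h1 : H a ≠ 0 := Finsupp.mem_support_iff.1 ha
      rw [hHa] at h1
      obtain ⟨p, hp, hp1⟩ := exists_ne_zero_of_sum_ne_zero h1
      have hpa : p.1 = a := by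
        by_contra hne
        exact hp1 (if_neg hne)
      rw [if_pos hpa] at hp1
      have hd : dsc k ((p.2 : ℚ) - (p.1 : ℚ) + 1) ≠ 0 := right_ne_zero_of_mul hp1
      have hk : (k : ℤ) ≤ p.2 - p.1 + 1 := by
        by_contra hlt
        apply hd
        have := dsc_eq_zero_of_lt (k := k) (hpos p hp) (not_le.1 hlt)
        push_cast at this
        exact this
      rw [← hpa]
      exact ⟨by exact_mod_cast hc p hp, hβ p hp hk⟩
    · exact hlen
    · intro i e he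
      have hP := PF_comp_aff (PF_desc (K := ℚ) (a := e) (b := k) (w := w i) (by omega)) 0 1 0 1 (-1) 1
      have h2 := hL i _ hP
      have h3 : (H.sum fun a v => v * ((a : ℚ) ^ e * x i ^ a)) =
          ∑ p ∈ h.support, h p * dsc k ((p.2 : ℚ) - (p.1 : ℚ) + 1) *
            ((p.1 : ℚ) ^ e * x i ^ p.1) := by
        simp only [H]
        rw [← Finsupp.sum_finsetSum_index (h := fun (a : ℤ) (v : ℚ) => v * ((a : ℚ) ^ e * x i ^ a))
          (by intro a; simp) (by intro a b1 b2; ring)]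
        refine sum_congr rfl fun p _ => ?_
        rw [Finsupp.sum_single_index (by simp)]
      rw [h3, ← h2]
      unfold pr Finsupp.sum
      refine sum_congr rfl fun p _ => ?_
      unfold dsc
      show h p * (∏ t ∈ range k, ((p.2 : ℚ) - (p.1 : ℚ) + 1 - (t : ℚ))) *
          ((p.1 : ℚ) ^ e * x i ^ p.1) =
        h p * ((0 + 1 * (p.1 : ℚ) + 0 * (p.2 : ℚ)) ^ e *
          ∏ t ∈ range k, ((1 + (-1) * (p.1 : ℚ) + 1 * (p.2 : ℚ)) - (t : ℚ))) *
          (x i ^ p.1 * 1 ^ p.2)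
      have e1 : ∏ t ∈ range k, ((1 + (-1) * (p.1 : ℚ) + 1 * (p.2 : ℚ)) - (t : ℚ)) =
          ∏ t ∈ range k, ((p.2 : ℚ) - (p.1 : ℚ) + 1 - (t : ℚ)) :=
        prod_congr rfl fun t _ => by ring
      rw [e1, one_zpow]
      ring
  have h4 : tau h c (fun b => dsc k (b - c + 1)) = H c := by
    rw [hHa]
    unfold tau Finsupp.sum
    refine sum_congr rfl fun p _ => ?_
    show (if p.1 = c then h p * dsc k ((p.2 : ℚ) - (c : ℚ) + 1) else 0) = _
    by_cases hpc : p.1 = c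
    · rw [if_pos hpc, if_pos hpc, hpc]
    · rw [if_neg hpc, if_neg hpc]
  rw [h4, hH0]
  rfl

theorem lead_form' {ι : Type} (x : ι → ℚ) (x0 y0 : ℚ) {w : ι → ℕ} {m : ℕ}
    {f : (ℤ × ℤ) →₀ LaurentSeries ℚ}
    (hf : f ≠ 0) (hL : ∀ i, LM f (cst (x i)) 1 (w i)) (hL0 : LM f (tv ℚ * cst x0) (cst y0) m) :
    ∃ g : (ℤ × ℤ) →₀ ℚ, g ≠ 0 ∧ g.support ⊆ f.support ∧ LM g x0 y0 m ∧
      ∀ c : ℤ, ∃ h : (ℤ × ℤ) →₀ ℚ, h.support ⊆ f.support ∧ (∀ i, LM h (x i) 1 (w i)) ∧
        (∀ p ∈ h.support, c ≤ p.1) ∧ ∀ b, h (c, b) = g (c, b) := by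
  have h1 : LM (sc f) (cst x0) (cst y0) m := LM_sc hL0
  have h2 : sc f ≠ 0 := by
    intro h
    apply hf
    rw [← Finsupp.support_eq_empty, ← sc_support, h, Finsupp.support_zero]
  obtain ⟨n, hn1, hn2, -⟩ := exists_lead h2
  refine ⟨(sc f).mapRange (fun u => u.coeff n) rfl, hn1, ?_, LM_coeff h1 n, ?_⟩
  · exact Finsupp.support_mapRange.trans (sc_support f).le
  · intro c
    refine ⟨f.mapRange (fun u => u.coeff (n - c)) rfl, Finsupp.support_mapRange, ?_, ?_, ?_⟩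
    · intro i
      apply LM_coeff
      have e : (cst (1 : ℚ) : LaurentSeries ℚ) = 1 := map_one _
      rw [e]
      exact hL i
    · intro p hp
      rw [Finsupp.mem_support_iff, Finsupp.mapRange_apply] at hp
      by_contra hlt
      push Not at hlt
      apply hp
      have h3 := hn2 p (n - c + p.1) (by omega)
      rw [sc_apply, coeff_tv] at h3
      rw [← h3]
      congr 1
      ring
    · intro b
      rw [Finsupp.mapRange_apply, Finsupp.mapRange_apply, sc_apply, coeff_tv]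

end Pool.Agent.TH759.EV
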