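import Pool.Agent.H15.G.R_seed8.TH759.EV.NForm
import Pool.Agent.H15.G.R_seed8.TH759.EV.NLead

/-!
# Thirteen points, nearly equal multiplicities: the block with its apex is empty
-/

set_option autoImplicit false

namespace Pool.Agent.TH759.EV

open Finset Pool.Agent.TH176.Nag Pool.Agent.TH978.S13

theorem tau_congr' {K : Type*} [Field K] {f g : (ℤ × ℤ) →₀ K} {c : ℤ} (h : ∀ b, f (c, b) = g (c, b))
    (Q : K → K) : tau f c Q = tau g c Q := by
  have h1 := tau_sub_smul f g 1 c Q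
  rw [one_mul] at h1
  rw [← sub_eq_zero, ← h1]
  apply tau_eq_zero
  intro b hb
  exfalso
  apply hb
  rw [Finsupp.sub_apply, Finsupp.smul_apply, h b]
  simp

/-- the block in the coordinates `c = i - j`, `b = i - 1` -/
theorem Emp_BlkB' {ι : Type} [Fintype ι] [DecidableEq ι] {w : ι → ℕ} (i0 : ι) {M m : ℕ} {K D : ℝ}
    (hK : 0 < K) (hK2 : K ^ 2 = M * K + M) (hw0 : w i0 = m) {n1 : ℤ} {e e' : ℝ}
    (hD : D = (K + 2) * m + e) (hn1 : e' = e - n1)
    (he0 : 0 ≤ e) (heK : e < K + 2) (he'0 : 0 ≤ e') (h1 : e' * (K + 1) + e < K + 2)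
    (hsum : ∀ k : ℕ, k < m → ((M : ℝ) + 4) * ((m : ℝ) - k) + n1 ≤ ∑ i, ((w i - k : ℕ) : ℝ))
    (hs : e - 1 < ∑ i, ((w i - m : ℕ) : ℝ))
    (hdef : ∃ k : ℕ, k < m ∧ ⌊D - (K + 2) * k⌋ + ⌊(D - (K + 2) * k - 1) / (K + 1)⌋ <
      ((M : ℤ) + 4) * ((m : ℤ) - k) + n1) :
    Emp w (BlkB K D) := by
  classical
  obtain ⟨y0, hy0, hy1, hz⟩ := lead_zero' hK hK2 hD hn1 he0 heK he'0 h1 hdef
  have htv : tv ℚ ≠ 0 := by
    intro h
    have := congrArg (fun u : LaurentSeries ℚ => u.coeff 1) h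
    simp [tv] at this
  have hcst : ∀ a : ℚ, a ≠ 0 → (cst a : LaurentSeries ℚ) ≠ 0 := by
    intro a ha h
    have h2 : (HahnSeries.C : ℚ →+* LaurentSeries ℚ) a = (HahnSeries.C : ℚ →+* LaurentSeries ℚ) 0 := by
      rw [map_zero]; exact h
    exact ha (HahnSeries.C_injective h2)
  have hK1 : 0 < K + 1 := by linarith
  have hrel : ((M : ℝ) + 3) * (K + 1) = (K + 1) * (K + 2) + 1 := by linarith
  have hm0 : (0 : ℝ) ≤ m := Nat.cast_nonneg _
  have hD0 : 0 ≤ D := by rw [hD]; positivity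
  -- the positions
  set pos : ι → ℚ := fun i => ((Fintype.equivFin ι i : ℕ) : ℚ) + 1 with hpos
  have hpos0 : ∀ i, pos i ≠ 0 := by
    intro i
    have : (0 : ℚ) ≤ ((Fintype.equivFin ι i : ℕ) : ℚ) := Nat.cast_nonneg _
    intro h
    simp only [hpos] at h
    linarith
  have hposi : Function.Injective pos := by
    intro i j hij
    simp only [hpos, add_left_inj, Nat.cast_inj] at hij
    exact (Fintype.equivFin ι).injective (Fin.ext hij)
  refine ⟨LaurentSeries ℚ, inferInstance, inferInstance,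
    fun i => if i ≠ i0 then cst (pos i) else tv ℚ * cst (1 : ℚ),
    fun i => if i ≠ i0 then 1 else cst y0, ?_, ?_, ?_⟩
  · intro i
    dsimp only
    split_ifs
    · exact hcst _ (hpos0 i)
    · exact mul_ne_zero htv (hcst _ one_ne_zero)
  · intro i
    dsimp only
    split_ifs
    · exact one_ne_zero
    · exact hcst _ hy0
  intro f hfS hfL
  by_contra hf
  obtain ⟨g, hg, hgf, hgL, hgh⟩ := lead_form' (m := m) (w := fun i : {i // i ≠ i0} => w i)
    (fun i : {i // i ≠ i0} => pos i) 1 y0 hf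
    (by
      intro i
      have := hfL i.1
      simpa [i.2] using this)
    (by
      have := hfL i0
      simpa [hw0] using this)
  apply hg
  have hline : ∀ k : ℕ, ∑ i : {i // i ≠ i0}, ((w i - k : ℕ) : ℝ) =
      (∑ i, ((w i - k : ℕ) : ℝ)) - ((m - k : ℕ) : ℝ) := by
    intro k
    have := Fintype.sum_eq_add_sum_subtype_ne (fun i => ((w i - k : ℕ) : ℝ)) i0
    rw [this, hw0]
    ring
  have key : ∀ (c : ℤ) (k : ℕ), k ≤ m → D - (K + 2) * k - c < ∑ i : {i // i ≠ i0}, ((w i - k : ℕ) : ℝ) →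
      tau g c (fun b => dsc k (b - c + 1)) = 0 := by
    intro c k hk hck
    obtain ⟨h, hhf, hhL, hhc, hhg⟩ := hgh c
    rw [← tau_congr' hhg]
    refine line_tau' (fun i : {i // i ≠ i0} => pos i) ?_ ?_ hhL hhc ?_ (β := D - (K + 2) * k) ?_ hck
    · intro i j hij
      exact Subtype.ext (hposi hij)
    · intro i
      exact hpos0 _
    · intro p hp
      rcases hfS (hhf hp) with h3 | h3
      · exact h3.2.1
      · rw [Set.mem_singleton_iff] at h3
        rw [h3]; norm_num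
    · intro p hp hkp
      rcases hfS (hhf hp) with h3 | h3
      · have h4 := h3.2.2
        have h5 : (k : ℝ) ≤ (p.2 : ℝ) - p.1 + 1 := by exact_mod_cast hkp
        have h6 : (K + 2) * (k : ℝ) ≤ (K + 2) * ((p.2 : ℝ) - p.1 + 1) :=
          mul_le_mul_of_nonneg_left h5 (by linarith)
        linarith
      · rw [Set.mem_singleton_iff] at h3
        rw [h3] at hkp ⊢
        simp only at hkp
        have hk0 : k = 0 := by omega
        rw [hk0]
        simpa using hD0
  refine hz g (fun p hp => hfS (hgf hp)) ?_ ?_ hgL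
  · intro c k hk hck
    apply key c k hk.le
    rw [hline]
    have h2 := hsum k hk
    rw [Nat.cast_sub hk.le]
    have h6 : (D - (K + 2) * k - c) * (K + 1) < (((M : ℝ) + 3) * (m - k) + n1) * (K + 1) := by
      have e1 : (((M : ℝ) + 3) * (m - k) + n1) * (K + 1) =
        (m - k) * (((M : ℝ) + 3) * (K + 1)) + n1 * (K + 1) := by ring
      rw [e1, hrel, hD]
      rw [hn1] at hck
      nlinarith
    have h7 := lt_of_mul_lt_mul_right h6 hK1.le
    linarith
  · intro c hc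
    apply key c m le_rfl
    rw [hline]
    have hcR : (1 : ℝ) ≤ c := by exact_mod_cast hc
    rw [Nat.sub_self, Nat.cast_zero, sub_zero, hD]
    linarith

/-- **STEP 3** for nearly equal multiplicities: the block with its apex is empty if some row is
deficient -/
theorem step3_near {ι : Type} [Fintype ι] [DecidableEq ι] {w : ι → ℕ} (i0 : ι) {M m : ℕ} {K D : ℝ}
    (hK : 0 < K) (hK2 : K ^ 2 = M * K + M) (hw0 : w i0 = m) {n1 : ℤ} {e e' : ℝ}
    (hD : D = (K + 2) * m + e) (hn1 : e' = e - n1)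
    (he0 : 0 ≤ e) (heK : e < K + 2) (he'0 : 0 ≤ e') (h1 : e' * (K + 1) + e < K + 2)
    (hsum : ∀ k : ℕ, k < m → ((M : ℝ) + 4) * ((m : ℝ) - k) + n1 ≤ ∑ i, ((w i - k : ℕ) : ℝ))
    (hs : e - 1 < ∑ i, ((w i - m : ℕ) : ℝ))
    (hdef : ∃ k : ℕ, k < m ∧ ⌊D - (K + 2) * k⌋ + ⌊(D - (K + 2) * k - 1) / (K + 1)⌋ <
      ((M : ℤ) + 4) * ((m : ℤ) - k) + n1) :
    Emp w (Blk K D) := by
  refine (Emp_BlkB' i0 hK hK2 hw0 hD hn1 he0 heK he'0 h1 hsum hs hdef).comap 1 (-1) 1 0 0 (-1)
    (by norm_num) ?_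
  rintro ⟨i, j⟩ h
  rcases h with ⟨h3, h4, h5⟩ | h3
  · simp only at h3 h4 h5
    left
    refine ⟨by simp only; omega, by simp only; omega, ?_⟩
    simp only
    push_cast
    linarith
  · rw [Set.mem_singleton_iff, Prod.mk.injEq] at h3
    right
    rw [Set.mem_singleton_iff, h3.1, h3.2]
    norm_num

end Pool.Agent.TH759.EV
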