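import Pool.Agent.H15.G.R_seed8.TH469.SX.Blk
import Pool.Agent.H15.G.R_seed8.TH759.EV.NStep

/-!
# The rows of the flattened block, arbitrary multiplicities
-/

set_option autoImplicit false

namespace Pool.Agent.TH759.EV

open Finset Pool.Agent.TH176.Nag Pool.Agent.TH603.Sur Pool.Agent.TH603.Cut Pool.Agent.TH469.SX

/-- the length of a row, arbitrary multiplicities -/
theorem row_card_w {p q M k : ℕ} {K A : ℝ} {W : ℤ} (hpq : p * q = 2) (hK0 : 0 < K)
    (hK : q * (K * (K - M)) = M) (hA : ((M : ℝ) + 2 * p) * (q * A - 1) < q * (K + p) * W)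
    {B : Finset ℤ} (hne : B.Nonempty)
    (hmem : ∀ c ∈ B, (1 ≤ c ∧ (c : ℝ) ≤ A - (K + p) * k) ∨
      (c ≤ 0 ∧ (-c : ℝ) * (q * (K + p) - 1) ≤ A - (K + p) * k - (K + p))) :
    (B.card : ℤ) ≤ W - (M + 2 * p) * k := by
  have hp : 1 ≤ p := Nat.pos_of_ne_zero (by rintro rfl; simp at hpq)
  have hq : 1 ≤ q := Nat.pos_of_ne_zero (by rintro rfl; simp at hpq)
  have hpR : (1 : ℝ) ≤ p := by exact_mod_cast hp
  have hqR : (1 : ℝ) ≤ q := by exact_mod_cast hq
  have hMR : (0 : ℝ) ≤ M := Nat.cast_nonneg _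
  have hid := key_id hpq hK
  obtain ⟨D, hD⟩ : ∃ D : ℝ, D = q * (K + p) - 1 := ⟨_, rfl⟩
  have hD0 : 0 < D := by rw [hD]; nlinarith
  rw [← hD] at hid hmem
  obtain ⟨Y, hY⟩ : ∃ Y : ℤ, Y = ⌊A - (K + p) * k⌋ := ⟨_, rfl⟩
  obtain ⟨U, hU⟩ : ∃ U : ℤ, U = ⌊(A - (K + p) * k - (K + p)) / D⌋ := ⟨_, rfl⟩
  have hY1 : 1 ≤ A - (K + p) * k := by
    obtain ⟨c, hc⟩ := hne
    rcases hmem c hc with ⟨h1, h2⟩ | ⟨h1, h2⟩
    · have : (1 : ℝ) ≤ c := by exact_mod_cast h1
      linarith
    · have h1R : (c : ℝ) ≤ 0 := by exact_mod_cast h1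
      have : 0 ≤ (-c : ℝ) * D := mul_nonneg (by linarith) hD0.le
      linarith
  have hYR : (0 : ℤ) ≤ Y := by rw [hY]; exact Int.floor_nonneg.2 (by linarith)
  have hUR : (-1 : ℤ) ≤ U := by
    rw [hU]
    apply Int.le_floor.2
    rw [le_div_iff₀ hD0, hD]
    push_cast
    nlinarith
  have hYU : B ⊆ Finset.Icc (-U) Y := by
    intro c hc
    rw [Finset.mem_Icc]
    rcases hmem c hc with ⟨h1, h2⟩ | ⟨h1, h2⟩
    · refine ⟨by omega, ?_⟩
      rw [hY]; exact Int.le_floor.2 h2
    · refine ⟨?_, by omega⟩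
      have : -c ≤ U := by
        rw [hU]
        apply Int.le_floor.2
        rw [le_div_iff₀ hD0]
        push_cast
        exact h2
      omega
  have hcB : (B.card : ℤ) ≤ Y + U + 1 := by
    have h1 := card_le_card hYU
    rw [Int.card_Icc] at h1
    omega
  have hWD : (q * A - 1) * (K + p) < W * D := by
    have hKp : 0 < K + p := by linarith
    have hn0 : 0 < (M : ℝ) + 2 * p := by linarith
    have h1 := mul_lt_mul_of_pos_right hA hKp
    have e1 : q * (K + p) * W * (K + p) = ((M : ℝ) + 2 * p) * (W * D) := by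
      have : q * (K + p) * W * (K + p) = (q * (K + p) ^ 2) * W := by ring
      rw [this, hid, hD]; ring
    rw [e1] at h1
    have e2 : ((M : ℝ) + 2 * p) * (q * A - 1) * (K + p) =
      ((M : ℝ) + 2 * p) * ((q * A - 1) * (K + p)) := by ring
    rw [e2] at h1
    exact lt_of_mul_lt_mul_left h1 hn0.le
  have hsum : ((Y + U + 1 : ℤ) : ℝ) < W - (M + 2 * p) * (k : ℝ) + 1 := by
    have h1 := Int.floor_le (A - (K + p) * k)
    have h2 := Int.floor_le ((A - (K + p) * k - (K + p)) / D)
    rw [← hY] at h1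
    rw [← hU] at h2
    rw [le_div_iff₀ hD0] at h2
    push_cast
    have h3 : ((Y : ℝ) + U + 1) * D < (W - (M + 2 * p) * (k : ℝ) + 1) * D := by
      have e1 : (W - (M + 2 * p) * (k : ℝ) + 1) * D =
          W * D - (q * (K + p) ^ 2) * k + D := by rw [hid, hD]; ring
      rw [e1]
      have h4 : (Y : ℝ) * D ≤ (A - (K + p) * k) * D := mul_le_mul_of_nonneg_right h1 hD0.le
      have h6 : ((Y : ℝ) + U + 1) * D ≤ (A - (K + p) * k) * D + (A - (K + p) * k - (K + p)) + D := by
        linarith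
      refine lt_of_le_of_lt h6 ?_
      have e2 : (A - (K + p) * k) * D + (A - (K + p) * k - (K + p)) + D =
          (q * A - 1) * (K + p) - q * (K + p) ^ 2 * k + D := by rw [hD]; ring
      rw [e2]
      linarith
    exact lt_of_mul_lt_mul_right h3 hD0.le
  have hsumZ : Y + U + 1 ≤ W - (M + 2 * p : ℤ) * k := by
    have : ((Y + U + 1 : ℤ) : ℝ) < ((W - (M + 2 * p : ℤ) * k + 1 : ℤ) : ℝ) := by
      push_cast at hsum ⊢
      exact hsum
    have := Int.cast_lt.1 this
    omega
  exact hcB.trans hsumZ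

variable {ι : Type} [Fintype ι]

/-- the multiplicities above a row, from below -/
theorem sum_ge' {N : ℕ} (w : ι → ℕ) (hc : Fintype.card ι = N) (g : ℕ) :
    ((∑ i, w i : ℕ) : ℤ) - N * g ≤ ((∑ i, (w i - g) : ℕ) : ℤ) := by
  have h1 : ∑ i, w i ≤ ∑ i, (w i - g) + N * g := by
    have : N * g = ∑ _i : ι, g := by simp [hc]
    rw [this, ← sum_add_distrib]
    exact sum_le_sum fun i _ => by omega
  have h2 : ((∑ i, w i : ℕ) : ℤ) ≤ ((∑ i, (w i - g) + N * g : ℕ) : ℤ) := by exact_mod_cast h1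
  push_cast at h2 ⊢
  linarith

/-- emptiness of the block with the apex, if the apex is absorbed by its row -/
theorem Emp_apex_w {w : ι → ℕ} {p q M : ℕ} {K A : ℝ} (hpq : p * q = 2) (hK0 : 0 < K)
    (hK : q * (K * (K - M)) = M) (hcard : Fintype.card ι = M + 2 * p) (hA0 : 0 ≤ A)
    (hA : ((M : ℝ) + 2 * p) * (q * A - 1) < q * (K + p) * ((∑ i, w i : ℕ) : ℝ))
    (hap : ∀ g : ℕ, (K + p) * g ≤ A → A < (K + p) * (g + 1) →
      A - (K + p) * g < ((∑ i, (w i - g) : ℕ) : ℝ)) :
    Emp w (Fl q K A ∪ {((0, 0) : ℤ × ℤ)}) := by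
  have hp : 1 ≤ p := Nat.pos_of_ne_zero (by rintro rfl; simp at hpq)
  have hq : 1 ≤ q := Nat.pos_of_ne_zero (by rintro rfl; simp at hpq)
  have hpR : (1 : ℝ) ≤ p := by exact_mod_cast hp
  have hqR : (1 : ℝ) ≤ q := by exact_mod_cast hq
  have hKp : 0 < K + p := by linarith
  have hD0 : 0 < q * (K + p) - 1 := by nlinarith
  refine Emp_slabs 1 (-(p : ℤ)) 1 0 (by ring) fun k B hB => ?_
  have hmem : ∀ c ∈ B, ((1 ≤ c ∧ (c : ℝ) ≤ A - (K + p) * k) ∨
      (c ≤ 0 ∧ (-c : ℝ) * (q * (K + p) - 1) ≤ A - (K + p) * k - (K + p))) ∨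
      (c = 0 ∧ 0 ≤ A - (K + p) * k) := by
    intro c hc
    obtain ⟨s, T, hT, h1, h2⟩ := hB c hc
    simp only [one_mul, zero_mul, neg_mul, sub_neg_eq_add, zero_add] at h1 h2
    by_cases hc0 : c = 0
    · right
      refine ⟨hc0, ?_⟩
      subst hc0
      have hs : (0 : ℤ) ≤ s := by
        rcases h1 with h1 | h1
        · exact h1.2.1
        · have := (Prod.mk.inj h1).2
          omega
      rcases h2 with h2 | h2
      · have h3 := h2.2.2.2
        simp only at h3
        push_cast at h3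
        have hTR : (k : ℝ) ≤ T := by exact_mod_cast hT
        have hsR : (0 : ℝ) ≤ s := by exact_mod_cast hs
        have h4 : (K + p) * k ≤ (K + p) * (s + T) := mul_le_mul_of_nonneg_left (by linarith) hKp.le
        linarith
      · have h3 := (Prod.mk.inj h2).2
        have h4 : k = 0 := by omega
        subst h4
        simpa using hA0
    · left
      have h1' : ((c + p * s, s) : ℤ × ℤ) ∈ Fl q K A := by
        rcases h1 with h1 | h1
        · exact h1
        · exfalso
          have h3 := Prod.mk.inj h1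
          rw [h3.2] at h3
          simp at h3
          exact hc0 h3
      have h2' : ((c + p * (s + T), s + T) : ℤ × ℤ) ∈ Fl q K A := by
        rcases h2 with h2 | h2
        · exact h2
        · exfalso
          have h3 := Prod.mk.inj h2
          rw [h3.2] at h3
          simp at h3
          exact hc0 h3
      exact mem_row hpq hK0 hT h1' h2'
  rcases B.eq_empty_or_nonempty with he | hne
  · rw [he]; simp
  rcases lt_or_ge (A - (K + p) * k) (K + p) with hy | hy
  · have hsub : ∀ c ∈ B, 0 ≤ c ∧ (c : ℝ) ≤ A - (K + p) * k := by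
      intro c hc
      rcases hmem c hc with (⟨h1, h2⟩ | ⟨h1, h2⟩) | ⟨h1, h2⟩
      · exact ⟨by omega, h2⟩
      · exfalso
        have h1R : (c : ℝ) ≤ 0 := by exact_mod_cast h1
        have : 0 ≤ (-c : ℝ) * (q * (K + p) - 1) := mul_nonneg (by linarith) hD0.le
        linarith
      · rw [h1]
        exact ⟨le_refl _, by simpa using h2⟩
    have hy0 : 0 ≤ A - (K + p) * k := by
      obtain ⟨c, hc⟩ := hne
      obtain ⟨h1, h2⟩ := hsub c hc
      have : (0 : ℝ) ≤ c := by exact_mod_cast h1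
      linarith
    have h6 := hap k (by linarith) (by linarith)
    have hB2 : B ⊆ Finset.Icc 0 ⌊A - (K + p) * k⌋ := by
      intro c hc
      rw [Finset.mem_Icc]
      exact ⟨(hsub c hc).1, Int.le_floor.2 (hsub c hc).2⟩
    have h3 := card_le_card hB2
    rw [Int.card_Icc] at h3
    have h4 : ⌊A - (K + p) * k⌋ < ((∑ i, (w i - k) : ℕ) : ℤ) := by
      apply Int.floor_lt.2
      exact_mod_cast h6
    omega
  · have h5 := row_card_w (W := ((∑ i, w i : ℕ) : ℤ)) hpq hK0 hK (by exact_mod_cast hA) hne (k := k)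
      (fun c hc => by
        rcases hmem c hc with h | ⟨h1, h2⟩
        · exact h
        · right
          rw [h1]
          refine ⟨le_refl _, ?_⟩
          simp
          linarith)
    have h6 := sum_ge' w hcard k
    push_cast at h5 h6
    have h7 : (B.card : ℤ) ≤ ((∑ i, (w i - k) : ℕ) : ℤ) := by
      push_cast
      linarith
    exact_mod_cast h7

/-- independence on the block, when all rows are long enough -/
theorem Sur_rows_w {w : ι → ℕ} {p q : ℕ} {K A : ℝ} (hpq : p * q = 2) (hK0 : 0 < K)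
    (hrow : ∀ k : ℕ, (∃ i, k < w i) → ((∑ i, (w i - k) : ℕ) : ℤ) ≤
      ⌊A - (K + p) * k⌋ + ⌊(A - (K + p) * k - (K + p)) / (q * (K + p) - 1)⌋ + 1) :
    Sur w (Fl q K A) := by
  have hp : 1 ≤ p := Nat.pos_of_ne_zero (by rintro rfl; simp at hpq)
  have hq : 1 ≤ q := Nat.pos_of_ne_zero (by rintro rfl; simp at hpq)
  have hpR : (1 : ℝ) ≤ p := by exact_mod_cast hp
  have hqR : (1 : ℝ) ≤ q := by exact_mod_cast hq
  have hpqZ : (p : ℤ) * q = 2 := by exact_mod_cast hpq
  have hpqR : (p : ℝ) * q = 2 := by exact_mod_cast hpq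
  have hKp : 0 < K + p := by linarith
  obtain ⟨D, hD⟩ : ∃ D : ℝ, D = q * (K + p) - 1 := ⟨_, rfl⟩
  have hD0 : 0 < D := by rw [hD]; nlinarith
  rw [← hD] at hrow
  refine Sur_slabs' 1 (-(p : ℤ)) 1 0 (by ring) fun k hk => ?_
  have hrow' := hrow k hk
  obtain ⟨Y, hY⟩ : ∃ Y : ℤ, Y = ⌊A - (K + p) * k⌋ := ⟨_, rfl⟩
  obtain ⟨U, hU⟩ : ∃ U : ℤ, U = ⌊(A - (K + p) * k - (K + p)) / D⌋ := ⟨_, rfl⟩
  rw [← hY, ← hU] at hrow'
  refine ⟨Finset.Icc (-U) Y, ?_, ?_⟩
  · rw [Int.card_Icc]
    omega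
  · intro c hc
    rw [Finset.mem_Icc] at hc
    obtain ⟨hc1, hc2⟩ := hc
    have hcY : (c : ℝ) ≤ A - (K + p) * k := by
      rw [hY] at hc2
      exact Int.le_floor.1 hc2
    simp only [one_mul, zero_mul, neg_mul, sub_neg_eq_add, zero_add]
    rcases lt_or_ge 0 c with h | h
    · refine ⟨0, fun s hs0 hsk => ?_⟩
      have hsR : (s : ℝ) ≤ k := by
        have : s ≤ (k : ℤ) := by omega
        exact_mod_cast this
      have hps : 0 ≤ (p : ℤ) * s := mul_nonneg (by positivity) hs0
      have hqc : 1 ≤ (q : ℤ) * c := by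
        have : (1 : ℤ) * 1 ≤ q * c := mul_le_mul (by exact_mod_cast hq) (by omega) (by norm_num) (by positivity)
        omega
      refine ⟨?_, hs0, ?_, ?_⟩
      · simp only; omega
      · simp only
        have e : (q : ℤ) * (c + p * s) = q * c + 2 * s := by linear_combination s * hpqZ
        rw [e]
        omega
      · simp only
        push_cast
        have h3 : (K + p) * s ≤ (K + p) * k := mul_le_mul_of_nonneg_left hsR hKp.le
        linarith
    · have hcU : (-c : ℝ) * D ≤ A - (K + p) * k - (K + p) := by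
        have h1 : -c ≤ U := by omega
        rw [hU] at h1
        have h2 := Int.le_floor.1 h1
        rw [le_div_iff₀ hD0] at h2
        push_cast at h2
        exact h2
      have hqc : (q : ℤ) * c ≤ 0 := mul_nonpos_of_nonneg_of_nonpos (by positivity) h
      refine ⟨1 - q * c, fun s hs0 hsk => ?_⟩
      have hsR : (s : ℝ) ≤ 1 - q * c + k := by exact_mod_cast hsk
      refine ⟨?_, ?_, ?_, ?_⟩
      · simp only
        have h1 : (p : ℤ) * (1 - q * c) ≤ p * s := mul_le_mul_of_nonneg_left hs0 (by positivity)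
        have h2 : (p : ℤ) * (1 - q * c) = p - 2 * c := by linear_combination -c * hpqZ
        have h3 : (1 : ℤ) ≤ p := by exact_mod_cast hp
        omega
      · simp only; omega
      · simp only
        have e : (q : ℤ) * (c + p * s) = q * c + 2 * s := by linear_combination s * hpqZ
        rw [e]
        omega
      · simp only
        push_cast
        rw [hD] at hcU
        have h3 : (K + p) * s ≤ (K + p) * (1 - q * c + k) := mul_le_mul_of_nonneg_left hsR hKp.le
        linarith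

end Pool.Agent.TH759.EV
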