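import Pool.Agent.H15.G.R_seed8.TH2.NU.Crit
import Pool.Agent.H15.G.R_seed8.TH759.EV.NDich

/-!
# Nearly equal multiplicities: from `N` points to `4 N` points, every degree
-/

set_option autoImplicit false

namespace Pool.Agent.TH759.EV

open Finset Pool.Agent.TH176.Nag Pool.Agent.TH603.Sur Pool.Agent.TH763.DB Module Pool.Agent.TH641.UM
  Pool.Agent.TH2.NU

/-- expected dimension in every degree -/
def Ex (M : Multiset ℕ) : Prop := ∀ d, Sgn M d

theorem Ex.or {M : Multiset ℕ} (h : Ex M) (d : ℕ) : EmpM M (TZ d) ∨ SurM M (TZ d) := by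
  rcases le_total ((d + 2).choose 2) (condM M) with h1 | h1
  · exact Or.inl ((h d).1 h1)
  · exact Or.inr ((h d).2 h1)

/-- exact clusters -/
theorem ExR {a b : ℕ} (hb : 1 ≤ b) {M : Multiset ℕ} (h : Ex (a • {b} + M)) : Ex (a • r4 b + M) := by
  intro d
  have e : Pool.Agent.TH2.NU.condM (a • r4 b + M) = Pool.Agent.TH2.NU.condM (a • {b} + M) := by
    rw [condM_add, condM_add, condM_smul, condM_smul, condM_single, condM_r4 hb]
  refine ⟨fun h1 => exM' hb ((h d).1 (by rw [← e]; exact h1)), fun h1 => exMS hb ((h d).2 (by rw [← e]; exact h1))⟩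

/-- `r4 b ≤ q4 b` -/
theorem Emp_rq {a b : ℕ} {M : Multiset ℕ} {S : Set (ℤ × ℤ)} (h : EmpM (a • r4 b + M) S) :
    EmpM (a • q4 b + M) S := by
  have h1 := (EmpM_iff (w := Sum.elim (fun p : Fin a × (Fin 2 × Fin 2) => rv b p.2)
    fun i : Fin M.toList.length => M.toList.get i) (by rw [ms_sum, ms_prod, ms_toList]; rfl) _).1 h
  refine (EmpM_iff (w := Sum.elim (fun p : Fin a × (Fin 2 × Fin 2) => qv b p.2)
    fun i : Fin M.toList.length => M.toList.get i) (by rw [ms_sum, ms_prod, ms_toList]; rfl) _).2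
    (Emp_emb id Function.injective_id ?_ h1)
  rintro (⟨i, p, q⟩ | i)
  · show rv b (p, q) ≤ qv b (p, q)
    unfold rv qv
    simp only
    have := q.2
    omega
  · exact le_refl _

/-- `q4 b ≤ r4 (b + 1)` -/
theorem Sur_rq {a b : ℕ} {M : Multiset ℕ} {S : Set (ℤ × ℤ)} (h : SurM (a • r4 (b + 1) + M) S) :
    SurM (a • q4 b + M) S := by
  have h1 := (SurM_iff (w := Sum.elim (fun p : Fin a × (Fin 2 × Fin 2) => rv (b + 1) p.2)
    fun i : Fin M.toList.length => M.toList.get i) (by rw [ms_sum, ms_prod, ms_toList]; rfl) _).1 h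
  refine (SurM_iff (w := Sum.elim (fun p : Fin a × (Fin 2 × Fin 2) => qv b p.2)
    fun i : Fin M.toList.length => M.toList.get i) (by rw [ms_sum, ms_prod, ms_toList]; rfl) _).2
    (Sur_anti ?_ h1)
  rintro (⟨i, p, q⟩ | i)
  · show qv b (p, q) ≤ rv (b + 1) (p, q)
    unfold rv qv
    simp only
    omega
  · exact le_refl _

/-- doubling without a window -/
theorem ExQ {a b : ℕ} (hb : 1 ≤ b) {M : Multiset ℕ} (h1 : Ex (a • {b} + M))
    (h2 : Ex (a • {b + 1} + M)) : Ex (a • q4 b + M) := by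
  rcases Nat.eq_zero_or_pos a with rfl | ha
  · simpa using h1
  intro d
  rcases h1.or d with h3 | h3
  · have h4 := Emp_rq (exM' hb h3)
    have h5 := Pool.Agent.TH864.SX.ED_of_or (Or.inl ((EmpM_iff (ms_toList _) _).1 h4))
    rw [cond_condM, ms_toList] at h5
    exact ⟨fun h => (EmpM_iff (ms_toList _) _).2 (h5.1 h), fun h => (SurM_iff (ms_toList _) _).2 (h5.2 h)⟩
  · rcases h2.or d with h4 | h4
    · exact Sgn_dbl ha h3 h4
    · have h5 := Sur_rq (exMS (by omega) h4)
      have h6 := Pool.Agent.TH864.SX.ED_of_or (Or.inr ((SurM_iff (ms_toList _) _).1 h5))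
      rw [cond_condM, ms_toList] at h6
      exact ⟨fun h => (EmpM_iff (ms_toList _) _).2 (h6.1 h), fun h => (SurM_iff (ms_toList _) _).2 (h6.2 h)⟩

theorem q4_even (m : ℕ) : q4 (2 * m) = 4 • {m} := by
  unfold q4 ms
  rw [Fintype.sum_prod_type]
  simp only [Fin.sum_univ_two, qv, Fin.val_zero, Fin.val_one, add_zero]
  have h1 : 2 * m / 2 = m := by omega
  have h2 : (2 * m + 1) / 2 = m := by omega
  rw [h1, h2]
  abel

theorem q4_odd (m : ℕ) : q4 (2 * m + 1) = 2 • {m} + 2 • {m + 1} := by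
  unfold q4 ms
  rw [Fintype.sum_prod_type]
  simp only [Fin.sum_univ_two, qv, Fin.val_zero, Fin.val_one, add_zero]
  have h1 : (2 * m + 1) / 2 = m := by omega
  have h2 : (2 * m + 1 + 1) / 2 = m + 1 := by omega
  rw [h1, h2]
  abel

theorem r4_odd (m : ℕ) : r4 (2 * m + 1) = 3 • {m} + {m + 1} := by
  unfold r4 ms
  rw [Fintype.sum_prod_type]
  simp only [Fin.sum_univ_two, rv, Fin.val_zero, Fin.val_one, mul_zero, mul_one, add_zero, zero_add]
  have h1 : (2 * (2 * m + 1) - 1) / 4 = m := by omega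
  have h2 : (2 * (2 * m + 1) - 1 + 1) / 4 = m := by omega
  have h3 : (2 * (2 * m + 1) - 1 + 2) / 4 = m := by omega
  have h4 : (2 * (2 * m + 1) - 1 + (2 + 1)) / 4 = m + 1 := by omega
  rw [h1, h2, h3, h4]
  abel

theorem r4_even (m : ℕ) : r4 (2 * m + 2) = {m} + 3 • {m + 1} := by
  unfold r4 ms
  rw [Fintype.sum_prod_type]
  simp only [Fin.sum_univ_two, rv, Fin.val_zero, Fin.val_one, mul_zero, mul_one, add_zero, zero_add]
  have h1 : (2 * (2 * m + 2) - 1) / 4 = m := by omega
  have h2 : (2 * (2 * m + 2) - 1 + 1) / 4 = m + 1 := by omega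
  have h3 : (2 * (2 * m + 2) - 1 + 2) / 4 = m + 1 := by omega
  have h4 : (2 * (2 * m + 2) - 1 + (2 + 1)) / 4 = m + 1 := by omega
  rw [h1, h2, h3, h4]
  abel

/-- nearly equal multiplicities at `N` points -/
def NU (N : ℕ) : Prop := ∀ b : ℕ, 1 ≤ b → ∀ x y : ℕ, x + y = N → Ex (x • {b} + y • {b + 1})

theorem NU_quad {N : ℕ} (h : NU N) : NU (4 * N) := by
  intro m hm x y hxy
  rcases le_or_gt y N with h1 | h1
  · -- `N - y` clusters `q4 (2 m)`, `y` clusters `r4 (2 m + 1)`
    have e : x • {m} + y • {m + 1} = (N - y) • q4 (2 * m) + y • r4 (2 * m + 1) := by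
      rw [q4_even, r4_odd, show x = (N - y) * 4 + y * 3 by omega]
      simp only [smul_add, smul_smul, add_smul]
      abel
    rw [e]
    have hA : ∀ c : ℕ, c = 2 * m ∨ c = 2 * m + 1 → Ex ((N - y) • {c} + y • r4 (2 * m + 1)) := by
      intro c hc
      rw [add_comm]
      apply ExR (by omega)
      rw [add_comm]
      rcases hc with rfl | rfl
      · exact h (2 * m) (by omega) _ _ (by omega)
      · rw [← add_smul]
        have := h (2 * m + 1) (by omega) (N - y + y) 0 (by omega)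
        rwa [zero_smul, add_zero] at this
    exact ExQ (by omega) (hA _ (Or.inl rfl)) (hA _ (Or.inr rfl))
  rcases le_or_gt y (3 * N) with h2 | h2
  · -- `a` clusters `q4 (2 m + 1)`, `p` clusters `r4 (2 m + 1)`, `r` clusters `r4 (2 m + 2)`
    obtain ⟨a, p, r, h3, h4⟩ : ∃ a p r : ℕ, a + p + r = N ∧ 2 * a + p + 3 * r = y :=
      ⟨(y - N) % 2, N - (y - N) % 2 - (y - N) / 2, (y - N) / 2, by omega, by omega⟩
    have e : x • {m} + y • {m + 1} =
        a • q4 (2 * m + 1) + (p • r4 (2 * m + 1) + r • r4 (2 * m + 2)) := by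
      rw [q4_odd, r4_odd, r4_even, show x = a * 2 + p * 3 + r by omega,
        show y = a * 2 + p + r * 3 by omega]
      simp only [smul_add, smul_smul, add_smul]
      abel
    rw [e]
    have hA : ∀ c : ℕ, c = 2 * m + 1 ∨ c = 2 * m + 2 →
        Ex (a • {c} + (p • r4 (2 * m + 1) + r • r4 (2 * m + 2))) := by
      intro c hc
      have e1 : a • {c} + (p • r4 (2 * m + 1) + r • r4 (2 * m + 2)) =
        p • r4 (2 * m + 1) + (a • {c} + r • r4 (2 * m + 2)) := by abel
      rw [e1]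
      apply ExR (by omega)
      have e2 : p • {2 * m + 1} + (a • {c} + r • r4 (2 * m + 2)) =
        r • r4 (2 * m + 2) + (p • {2 * m + 1} + a • {c}) := by abel
      rw [e2]
      apply ExR (by omega)
      rcases hc with rfl | rfl
      · have e3 : r • ({2 * m + 2} : Multiset ℕ) + (p • {2 * m + 1} + a • {2 * m + 1}) =
          (p + a) • {2 * m + 1} + r • {2 * m + 1 + 1} := by rw [add_smul]; abel
        rw [e3]
        exact h (2 * m + 1) (by omega) _ _ (by omega)
      · have e3 : r • ({2 * m + 2} : Multiset ℕ) + (p • {2 * m + 1} + a • {2 * m + 2}) =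
          p • {2 * m + 1} + (r + a) • {2 * m + 1 + 1} := by rw [add_smul]; abel
        rw [e3]
        exact h (2 * m + 1) (by omega) _ _ (by omega)
    exact ExQ (by omega) (hA _ (Or.inl rfl)) (hA _ (Or.inr rfl))
  · -- `a` clusters `q4 (2 m + 2)`, `r` clusters `r4 (2 m + 2)`
    obtain ⟨a, r, h3, h4⟩ : ∃ a r : ℕ, a + r = N ∧ 4 * a + 3 * r = y :=
      ⟨y - 3 * N, 4 * N - y, by omega, by omega⟩
    have e : x • {m} + y • {m + 1} = a • q4 (2 * (m + 1)) + r • r4 (2 * m + 2) := by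
      rw [q4_even, r4_even, show x = r by omega, show y = a * 4 + r * 3 by omega]
      simp only [smul_add, smul_smul, add_smul]
      abel
    rw [e]
    have hA : ∀ c : ℕ, c = 2 * (m + 1) ∨ c = 2 * (m + 1) + 1 → Ex (a • {c} + r • r4 (2 * m + 2)) := by
      intro c hc
      rw [add_comm]
      apply ExR (by omega)
      rcases hc with rfl | rfl
      · have e3 : r • ({2 * m + 2} : Multiset ℕ) + a • {2 * (m + 1)} =
          (r + a) • {2 * m + 2} + 0 • {2 * m + 2 + 1} := by
          rw [add_smul, zero_smul, add_zero]; rfl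
        rw [e3]
        exact h (2 * m + 2) (by omega) _ _ (by omega)
      · have e3 : r • ({2 * m + 2} : Multiset ℕ) + a • {2 * (m + 1) + 1} =
          r • ({2 * m + 2} : Multiset ℕ) + a • {2 * m + 2 + 1} := rfl
        rw [e3]
        exact h (2 * m + 2) (by omega) _ _ (by omega)
    exact ExQ (by omega) (hA _ (Or.inl rfl)) (hA _ (Or.inr rfl))

theorem NU_pow {N : ℕ} (h : NU N) (k : ℕ) : NU (N * 4 ^ k) := by
  induction k with
  | zero => simpa using h
  | succ k ih =>
    have := NU_quad ih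
    rwa [show 4 * (N * 4 ^ k) = N * 4 ^ (k + 1) by ring] at this

/-- near-uniform families and multisets -/
theorem Ex_fam {N : ℕ} (h : NU N) {m : ℕ} (hm : 1 ≤ m) {ι : Type} [Fintype ι] (hc : Fintype.card ι = N)
    {w : ι → ℕ} (hw : ∀ i, w i = m ∨ w i = m + 1) (d : ℕ) :
    ((d + 2).choose 2 ≤ cond w → Emp w (TZ d)) ∧ (cond w ≤ (d + 2).choose 2 → Sur w (TZ d)) := by
  classical
  obtain ⟨y, hy⟩ : ∃ y : ℕ, y = ∑ i, (w i - m) := ⟨_, rfl⟩
  have h1 : ∑ i, w i = N * m + y := by
    have : N * m = ∑ _i : ι, m := by simp [hc]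
    rw [this, hy, ← sum_add_distrib]
    exact sum_congr rfl fun i _ => by rcases hw i with h | h <;> omega
  have hyN : y ≤ N := by
    have : N = ∑ _i : ι, 1 := by simp [hc]
    rw [hy, this]
    exact sum_le_sum fun i _ => by rcases hw i with h | h <;> omega
  have e : ms w = (N - y) • {m} + y • {m + 1} := by
    have h2 : ms w = ms (Sum.elim (fun _ : Fin (N - y) => m) (fun _ : Fin y => m + 1)) := by
      refine ms_eq hw ?_ ?_ ?_
      · rintro (i | i)
        · exact Or.inl rfl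
        · exact Or.inr rfl
      · rw [hc, Fintype.card_sum, Fintype.card_fin, Fintype.card_fin]; omega
      · rw [h1, Fintype.sum_sum_type]
        simp only [Sum.elim_inl, Sum.elim_inr, sum_const, card_univ, Fintype.card_fin, smul_eq_mul]
        obtain ⟨z, hz⟩ : ∃ z, N = y + z := ⟨N - y, by omega⟩
        rw [hz, Nat.add_sub_cancel_left]
        ring
    rw [h2, ms_sum, ms_fin, ms_fin]
  have h3 := h m hm (N - y) y (by omega) d
  unfold Sgn at h3
  rw [← e, ← cond_condM, EmpM_iff rfl, SurM_iff rfl] at h3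
  exact h3

theorem NU_thirteen : NU 13 := by
  intro b hb x y hxy d
  have e : x • {b} + y • {b + 1} = ms (Sum.elim (fun _ : Fin x => b) (fun _ : Fin y => b + 1)) := by
    rw [ms_sum, ms_fin, ms_fin]
  have hc : Fintype.card (Fin x ⊕ Fin y) = 13 := by
    rw [Fintype.card_sum, Fintype.card_fin, Fintype.card_fin]; exact hxy
  have h0 : ∀ w : Fin 13 → ℕ, (∀ i, w i = b ∨ w i = b + 1) → Emp w (TZ d) ∨ Sur w (TZ d) := by
    intro w hw
    by_cases h : ∃ i0, w i0 = b
    · obtain ⟨i0, h0⟩ := h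
      exact dich_near hw h0 d
    · push Not at h
      have h1 : ∀ i, w i = b + 1 := fun i => by
        rcases hw i with h2 | h2
        · exact absurd h2 (h i)
        · exact h2
      exact dich_near (m := b + 1) (fun i => Or.inl (h1 i)) (h1 0) d
  let f := Fintype.equivFinOfCardEq hc
  have h1 := h0 (fun i => Sum.elim (fun _ : Fin x => b) (fun _ : Fin y => b + 1) (f.symm i)) (by
    intro i
    rcases f.symm i with j | j
    · exact Or.inl rfl
    · exact Or.inr rfl)
  have h2 := Pool.Agent.TH864.SX.ED_of_or h1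
  have h3 : ms (fun i => Sum.elim (fun _ : Fin x => b) (fun _ : Fin y => b + 1) (f.symm i)) =
      x • {b} + y • {b + 1} := by
    rw [e]
    unfold ms
    exact Equiv.sum_comp f.symm (fun j => ({Sum.elim (fun _ : Fin x => b) (fun _ : Fin y => b + 1) j} : Multiset ℕ))
  rw [cond_condM, h3] at h2
  exact ⟨fun h => (EmpM_iff h3 _).2 (h2.1 h), fun h => (SurM_iff h3 _).2 (h2.2 h)⟩

/-- **`13 * 4 ^ k` points, multiplicities `m` and `m + 1`, every degree.** -/
theorem expDim_thirteen_pow (k : ℕ) {m : ℕ} (hm : 1 ≤ m) {w : Fin (13 * 4 ^ k) → ℕ}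
    (hw : ∀ i, w i = m ∨ w i = m + 1) :
    ∃ F : MvPolynomial (Fin (13 * 4 ^ k) × Fin 2) ℚ, F ≠ 0 ∧ ∀ {L : Type} [Field L] [CharZero L]
      (P : Fin (13 * 4 ^ k) → Fin 2 → L),
      MvPolynomial.aeval (fun ij : Fin (13 * 4 ^ k) × Fin 2 => P ij.1 ij.2) F ≠ 0 →
      ∀ d, Pool.Agent.H932R3.ExpDim L w P d :=
  expDim_of_sign (fun d => (Ex_fam (NU_pow NU_thirteen k) hm (Fintype.card_fin _) hw d).1)
    (fun d => (Ex_fam (NU_pow NU_thirteen k) hm (Fintype.card_fin _) hw d).2)

end Pool.Agent.TH759.EV
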